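import Pool.Agent.K3h25.Kh.LemA

set_option autoImplicit false
open Finset

namespace Pool.Agent.K3h25.Kh

/-- sup-norm distance of `j y` to the nearest integer vector -/
noncomputable def nd (y : ℝ × ℝ) (j : ℕ) : ℝ :=
  max |(j : ℝ) * y.1 - round ((j : ℝ) * y.1)| |(j : ℝ) * y.2 - round ((j : ℝ) * y.2)|

/-- denominators of best approximations -/
def Best (y : ℝ × ℝ) : Set ℕ := {c | 1 ≤ c ∧ ∀ j, 1 ≤ j → j < c → nd y c < nd y j}

lemma nd_le (y : ℝ × ℝ) (j : ℕ) (a b : ℤ) :
    nd y j ≤ max |(j : ℝ) * y.1 - a| |(j : ℝ) * y.2 - b| :=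
  max_le_max (round_le _ _) (round_le _ _)

lemma same_sign {x z : ℝ} (h : (0 ≤ x ∧ 0 ≤ z) ∨ (x < 0 ∧ z < 0)) : |x - z| ≤ max |x| |z| := by
  rcases h with ⟨h1, h2⟩ | ⟨h1, h2⟩
  · rw [abs_of_nonneg h1, abs_of_nonneg h2, abs_le]
    constructor
    · linarith [le_max_right x z]
    · linarith [le_max_left x z]
  · rw [abs_of_neg h1, abs_of_neg h2, abs_le]
    constructor
    · linarith [le_max_left (-x) (-z)]
    · linarith [le_max_right (-x) (-z)]

lemma best_card (y : ℝ × ℝ) (X : ℕ) (F : Finset ℕ)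
    (hF : ∀ c ∈ F, c ∈ Best y ∧ X ≤ c ∧ c < 2 * X) : F.card ≤ 4 := by
  classical
  have h1 : F.card ≤ (Finset.univ : Finset (Bool × Bool)).card := by
    refine Finset.card_le_card_of_injOn (fun c => (decide (0 ≤ (c : ℝ) * y.1 -
      round ((c : ℝ) * y.1)), decide (0 ≤ (c : ℝ) * y.2 - round ((c : ℝ) * y.2)))) ?_ ?_
    · intro c _
      exact Finset.mem_coe.2 (Finset.mem_univ _)
    · -- a general statement for c < c'
      have key : ∀ c ∈ F, ∀ c' ∈ F, c < c' →
          ((0 ≤ (c : ℝ) * y.1 - round ((c : ℝ) * y.1)) ↔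
            (0 ≤ (c' : ℝ) * y.1 - round ((c' : ℝ) * y.1))) →
          ((0 ≤ (c : ℝ) * y.2 - round ((c : ℝ) * y.2)) ↔
            (0 ≤ (c' : ℝ) * y.2 - round ((c' : ℝ) * y.2))) → False := by
        intro c hc c' hc' hlt hs1 hs2
        obtain ⟨⟨hc1, hcb⟩, hcX, hcX2⟩ := hF c hc
        obtain ⟨⟨hc1', hcb'⟩, hcX', hcX2'⟩ := hF c' hc'
        have hlt2 := hcb' c hc1 hlt
        have hg := hcb (c' - c) (by omega) (by omega)
        have h3 : nd y (c' - c) ≤ nd y c := by
          refine (nd_le y (c' - c) (round ((c' : ℝ) * y.1) - round ((c : ℝ) * y.1))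
            (round ((c' : ℝ) * y.2) - round ((c : ℝ) * y.2))).trans ?_
          rw [Nat.cast_sub hlt.le]
          push_cast
          refine max_le ?_ ?_
          · have e : ((c' : ℝ) - c) * y.1 - ((round ((c' : ℝ) * y.1) : ℝ) - round ((c : ℝ) * y.1)) =
                ((c' : ℝ) * y.1 - round ((c' : ℝ) * y.1)) -
                ((c : ℝ) * y.1 - round ((c : ℝ) * y.1)) := by ring
            rw [e]
            refine (same_sign ?_).trans (max_le ((le_max_left _ _).trans hlt2.le)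
              (le_max_left _ _))
            by_cases h0 : 0 ≤ (c : ℝ) * y.1 - round ((c : ℝ) * y.1)
            · exact Or.inl ⟨hs1.1 h0, h0⟩
            · exact Or.inr ⟨not_le.1 fun h => h0 (hs1.2 h), not_le.1 h0⟩
          · have e : ((c' : ℝ) - c) * y.2 - ((round ((c' : ℝ) * y.2) : ℝ) - round ((c : ℝ) * y.2)) =
                ((c' : ℝ) * y.2 - round ((c' : ℝ) * y.2)) -
                ((c : ℝ) * y.2 - round ((c : ℝ) * y.2)) := by ring
            rw [e]
            refine (same_sign ?_).trans (max_le ((le_max_right _ _).trans hlt2.le)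
              (le_max_right _ _))
            by_cases h0 : 0 ≤ (c : ℝ) * y.2 - round ((c : ℝ) * y.2)
            · exact Or.inl ⟨hs2.1 h0, h0⟩
            · exact Or.inr ⟨not_le.1 fun h => h0 (hs2.2 h), not_le.1 h0⟩
        linarith
      intro c hc c' hc' hcc
      simp only [Prod.mk.injEq, decide_eq_decide] at hcc
      rcases lt_trichotomy c c' with h | h | h
      · exact (key c hc c' hc' h hcc.1 hcc.2).elim
      · exact h
      · exact (key c' hc' c hc h hcc.1.symm hcc.2.symm).elim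
  simpa using h1

/-- the indicator of `Best` -/
noncomputable def bi (y : ℝ × ℝ) (c : ℕ) : ℝ := (Best y).indicator (fun _ => (1 : ℝ)) c

lemma bi_nonneg (y : ℝ × ℝ) (c : ℕ) : 0 ≤ bi y c := by
  unfold bi
  exact Set.indicator_nonneg (fun _ _ => zero_le_one) _

lemma bi_le_one (y : ℝ × ℝ) (c : ℕ) : bi y c ≤ 1 := by
  unfold bi
  exact Set.indicator_le_self' (fun _ _ => zero_le_one) _

lemma bi_of_mem {y : ℝ × ℝ} {c : ℕ} (h : c ∈ Best y) : bi y c = 1 := by
  unfold bi
  exact Set.indicator_of_mem h _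

lemma bi_of_not_mem {y : ℝ × ℝ} {c : ℕ} (h : c ∉ Best y) : bi y c = 0 := by
  unfold bi
  exact Set.indicator_of_notMem h _

lemma sum_dyadic (y : ℝ × ℝ) (N : ℕ) :
    ∑ c ∈ Finset.range (2 ^ N), bi y c / c ≤ 8 - 8 / 2 ^ N := by
  classical
  induction N with
  | zero =>
    have : (0 : ℕ) ∉ Best y := fun h => by simpa using h.1
    simp [bi_of_not_mem this]
  | succ N ih =>
    have h1 : Finset.range (2 ^ (N + 1)) =
        Finset.range (2 ^ N) ∪ Finset.Ico (2 ^ N) (2 ^ (N + 1)) := by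
      rw [Finset.range_eq_Ico, Finset.range_eq_Ico, Finset.Ico_union_Ico_eq_Ico (Nat.zero_le _)
        (Nat.pow_le_pow_right (by norm_num) (Nat.le_succ N))]
    have hdisj : Disjoint (Finset.range (2 ^ N)) (Finset.Ico (2 ^ N) (2 ^ (N + 1))) := by
      rw [Finset.range_eq_Ico]
      exact Finset.Ico_disjoint_Ico_consecutive _ _ _
    rw [h1, Finset.sum_union hdisj]
    have h2 : ∑ c ∈ Finset.Ico (2 ^ N) (2 ^ (N + 1)), bi y c / c ≤ 4 / 2 ^ N := by
      have h3 : ∑ c ∈ Finset.Ico (2 ^ N) (2 ^ (N + 1)), bi y c / c ≤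
          ∑ c ∈ (Finset.Ico (2 ^ N) (2 ^ (N + 1))).filter (fun c => c ∈ Best y),
            (1 : ℝ) / 2 ^ N := by
        rw [Finset.sum_filter]
        refine Finset.sum_le_sum fun c hc => ?_
        rw [Finset.mem_Ico] at hc
        have hc' : ((2 : ℝ) ^ N) ≤ c := by exact_mod_cast hc.1
        split_ifs with h
        · rw [bi_of_mem h]
          exact one_div_le_one_div_of_le (by positivity) hc'
        · rw [bi_of_not_mem h, zero_div]
      refine h3.trans ?_
      rw [Finset.sum_const, nsmul_eq_mul]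
      have h4 := best_card y (2 ^ N) ((Finset.Ico (2 ^ N) (2 ^ (N + 1))).filter
        (fun c => c ∈ Best y)) (by
          intro c hc
          rw [Finset.mem_filter, Finset.mem_Ico, pow_succ] at hc
          exact ⟨hc.2, hc.1.1, by omega⟩)
      have h5 : ((((Finset.Ico (2 ^ N) (2 ^ (N + 1))).filter
        (fun c => c ∈ Best y)).card : ℕ) : ℝ) ≤ 4 := by exact_mod_cast h4
      calc _ ≤ (4 : ℝ) * (1 / 2 ^ N) := mul_le_mul_of_nonneg_right h5 (by positivity)
        _ = 4 / 2 ^ N := by ring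
    have h6 : (8 : ℝ) / 2 ^ (N + 1) = 4 / 2 ^ N := by
      rw [pow_succ]; field_simp; norm_num
    have h7 : (8 : ℝ) / 2 ^ N = 2 * (4 / 2 ^ N) := by ring
    linarith

lemma summable_bi (y : ℝ × ℝ) : Summable (fun c : ℕ => bi y c / c) := by
  refine summable_of_sum_range_le (c := 8) (fun c => div_nonneg (bi_nonneg y c)
    (Nat.cast_nonneg _)) fun n => ?_
  have h1 : n ≤ 2 ^ n := Nat.lt_two_pow_self.le
  calc ∑ c ∈ Finset.range n, bi y c / c ≤ ∑ c ∈ Finset.range (2 ^ n), bi y c / c :=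
        Finset.sum_le_sum_of_subset_of_nonneg (Finset.range_mono h1)
          (fun c _ _ => div_nonneg (bi_nonneg y c) (Nat.cast_nonneg _))
    _ ≤ 8 - 8 / 2 ^ n := sum_dyadic y n
    _ ≤ 8 := by
        have : (0 : ℝ) ≤ 8 / 2 ^ n := by positivity
        linarith

/-- The tail quantity `T(K) = ∑ 1 / max (c, K)` over the best denominators -/
noncomputable def T (y : ℝ × ℝ) (K : ℕ) : ℝ := ∑' c : ℕ, bi y c / (max c K : ℕ)

lemma T_term_le (y : ℝ × ℝ) (K c : ℕ) : bi y c / (max c K : ℕ) ≤ bi y c / c := by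
  rcases Nat.eq_zero_or_pos c with rfl | hc
  · have : (0 : ℕ) ∉ Best y := fun h => by simpa using h.1
    simp [bi_of_not_mem this]
  · have hc' : (0 : ℝ) < c := by exact_mod_cast hc
    refine div_le_div_of_nonneg_left (bi_nonneg y c) hc' ?_
    exact_mod_cast le_max_left c K

lemma T_term_nonneg (y : ℝ × ℝ) (K c : ℕ) : 0 ≤ bi y c / (max c K : ℕ) :=
  div_nonneg (bi_nonneg y c) (Nat.cast_nonneg _)

lemma T_summable (y : ℝ × ℝ) (K : ℕ) : Summable (fun c : ℕ => bi y c / (max c K : ℕ)) :=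
  Summable.of_nonneg_of_le (T_term_nonneg y K) (T_term_le y K) (summable_bi y)

lemma T_tendsto (y : ℝ × ℝ) : Filter.Tendsto (T y) Filter.atTop (nhds 0) := by
  have h := tendsto_tsum_of_dominated_convergence (𝓕 := Filter.atTop)
    (f := fun (K : ℕ) (c : ℕ) => bi y c / (max c K : ℕ)) (g := fun _ => (0 : ℝ))
    (bound := fun c : ℕ => bi y c / c) (summable_bi y) (by
      intro c
      have h1 : Filter.Tendsto (fun K : ℕ => ((max c K : ℕ) : ℝ)) Filter.atTop Filter.atTop :=
        Filter.tendsto_atTop_mono (fun K => by exact_mod_cast le_max_right c K)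
          tendsto_natCast_atTop_atTop
      exact h1.const_div_atTop _) (by
      refine Filter.Eventually.of_forall fun K c => ?_
      rw [Real.norm_of_nonneg (T_term_nonneg y K c)]
      exact T_term_le y K c)
  rw [tsum_zero] at h
  exact h

/-- finite sums are bounded by `T` -/
lemma sum_le_T (y : ℝ × ℝ) (K : ℕ) (F : Finset ℕ) (hF : ∀ c ∈ F, c ∈ Best y) :
    ∑ c ∈ F, (1 : ℝ) / (max c K : ℕ) ≤ T y K := by
  have h := (T_summable y K).sum_le_tsum F (fun c _ => T_term_nonneg y K c)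
  refine le_trans (le_of_eq ?_) h
  exact Finset.sum_congr rfl fun c hc => by rw [bi_of_mem (hF c hc)]

/-- the number of best denominators below `q` -/
lemma card_le_T (y : ℝ × ℝ) {q : ℕ} (hq : 0 < q) (F : Finset ℕ)
    (hF : ∀ c ∈ F, c ∈ Best y ∧ c ≤ q) : (F.card : ℝ) ≤ q * T y q := by
  have h := sum_le_T y q F (fun c hc => (hF c hc).1)
  have h2 : ∑ c ∈ F, (1 : ℝ) / (max c q : ℕ) = F.card * (1 / q) := by
    rw [Finset.sum_congr rfl fun c hc => by rw [max_eq_right (hF c hc).2], Finset.sum_const,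
      nsmul_eq_mul]
  rw [h2] at h
  have hq' : (0 : ℝ) < q := by exact_mod_cast hq
  calc (F.card : ℝ) = q * (F.card * (1 / q)) := by field_simp
    _ ≤ q * T y q := mul_le_mul_of_nonneg_left h hq'.le

end Pool.Agent.K3h25.Kh
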