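import Pool.Agent.K3h25.Kh.Overlap

set_option autoImplicit false
open Finset MeasureTheory

namespace Pool.Agent.K3h25.Kh

variable {y : ℝ × ℝ} {K : ℕ}

/-- the pairs `(e, f)` of bad overlaps -/
def SM (y : ℝ × ℝ) (K : ℕ) (M : ℝ) : Set (ℕ × ℕ) :=
  {p | 1 ≤ p.2 ∧ p.2 < p.1 ∧ (p.2 : ℝ) * M < 1 / 2 ∧
    (p.1 ≤ K ∨ (p.1 - p.2 ∈ JM y M p.1 ∧ ((JM y M p.1).card : ℝ) ≤ 30 * p.1 ^ 2 * M))}

lemma fiber_SM {M : ℝ} (hM : 0 < M) (F : Finset (ℕ × ℕ)) (hF : ∀ p ∈ F, p ∈ SM y K M) (e : ℕ)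
    (he : e ∈ F.image Prod.fst) :
    ((F.filter (fun p => p.1 = e)).card : ℝ) * (1 / (e : ℝ) ^ 2) ≤
      (if e ≤ K then 1 else 0) + (if e ≤ ⌊1 / M⌋₊ then 30 * M else 0) +
      (if ⌊1 / M⌋₊ < e then (1 / (2 * M)) * ((e : ℝ) ^ 2)⁻¹ else 0) := by
  classical
  have he1 : 1 ≤ e := by
    rw [Finset.mem_image] at he
    obtain ⟨p, hp, rfl⟩ := he
    have := hF p hp
    have h1 := this.1
    have h2 := this.2.1
    omega
  have he' : (1 : ℝ) ≤ e := by exact_mod_cast he1
  have hpos1 : (0 : ℝ) ≤ (if e ≤ K then 1 else 0) := by split_ifs <;> norm_num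
  have hpos2 : (0 : ℝ) ≤ (if e ≤ ⌊1 / M⌋₊ then 30 * M else 0) := by
    split_ifs
    · positivity
    · exact le_rfl
  have hpos3 : (0 : ℝ) ≤ (if ⌊1 / M⌋₊ < e then (1 / (2 * M)) * ((e : ℝ) ^ 2)⁻¹ else 0) := by
    split_ifs
    · positivity
    · exact le_rfl
  by_cases hK : e ≤ K
  · have h1 : (F.filter (fun p => p.1 = e)).card ≤ e := by
      have : (F.filter (fun p => p.1 = e)).card ≤ (Finset.range e).card := by
        refine Finset.card_le_card_of_injOn Prod.snd ?_ ?_
        · intro p hp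
          rw [Finset.mem_coe, Finset.mem_filter] at hp
          rw [Finset.coe_range, Set.mem_Iio]
          have := (hF p hp.1).2.1
          omega
        · intro p hp p' hp' hpp
          rw [Finset.mem_coe, Finset.mem_filter] at hp hp'
          exact Prod.ext (hp.2.trans hp'.2.symm) hpp
      rwa [Finset.card_range] at this
    have h1' : ((F.filter (fun p => p.1 = e)).card : ℝ) ≤ e := by exact_mod_cast h1
    have h2 : ((F.filter (fun p => p.1 = e)).card : ℝ) * (1 / (e : ℝ) ^ 2) ≤ 1 := by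
      rw [mul_one_div, div_le_one (by positivity)]
      nlinarith
    have h3 : (if e ≤ K then (1 : ℝ) else 0) = 1 := if_pos hK
    linarith
  · by_cases hN : e ≤ ⌊1 / M⌋₊
    · have h1 : (F.filter (fun p => p.1 = e)).card ≤ (JM y M e).card := by
        refine Finset.card_le_card_of_injOn (fun p => p.1 - p.2) ?_ ?_
        · intro p hp
          rw [Finset.mem_coe, Finset.mem_filter] at hp
          obtain ⟨hp1, hp2⟩ := hp
          rw [Finset.mem_coe, ← hp2]
          rcases (hF p hp1).2.2.2 with h | h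
          · rw [hp2] at h; exact absurd h hK
          · exact h.1
        · intro p hp p' hp' hpp
          rw [Finset.mem_coe, Finset.mem_filter] at hp hp'
          have h1 := (hF p hp.1).2.1
          have h2 := (hF p' hp'.1).2.1
          have h3 := hp.2
          have h4 := hp'.2
          simp only at hpp
          exact Prod.ext (h3.trans h4.symm) (by omega)
      have h2 : ((JM y M e).card : ℝ) ≤ 30 * e ^ 2 * M := by
        rw [Finset.mem_image] at he
        obtain ⟨p, hp, hpe⟩ := he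
        rcases (hF p hp).2.2.2 with h | h
        · rw [hpe] at h; exact absurd h hK
        · rw [hpe] at h; exact h.2
      have h3 : ((F.filter (fun p => p.1 = e)).card : ℝ) ≤ 30 * e ^ 2 * M :=
        le_trans (by exact_mod_cast h1) h2
      have h4 : ((F.filter (fun p => p.1 = e)).card : ℝ) * (1 / (e : ℝ) ^ 2) ≤ 30 * M := by
        rw [mul_one_div, div_le_iff₀ (by positivity)]
        linarith
      have h5 : (if e ≤ ⌊1 / M⌋₊ then 30 * M else 0) = 30 * M := if_pos hN
      linarith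
    · have h1 : ((F.filter (fun p => p.1 = e)).card : ℝ) ≤ 1 / (2 * M) := by
        have h2 : (F.filter (fun p => p.1 = e)).card ≤ (Finset.Icc 1 ⌊1 / (2 * M)⌋₊).card := by
          refine Finset.card_le_card_of_injOn Prod.snd ?_ ?_
          · intro p hp
            rw [Finset.mem_coe, Finset.mem_filter] at hp
            rw [Finset.mem_coe, Finset.mem_Icc]
            obtain ⟨h1, h2, h3, h4⟩ := hF p hp.1
            refine ⟨h1, Nat.le_floor ?_⟩
            rw [le_div_iff₀ (by positivity)]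
            linarith
          · intro p hp p' hp' hpp
            rw [Finset.mem_coe, Finset.mem_filter] at hp hp'
            exact Prod.ext (hp.2.trans hp'.2.symm) hpp
        rw [Nat.card_Icc, Nat.add_sub_cancel] at h2
        exact le_trans (by exact_mod_cast h2) (Nat.floor_le (by positivity))
      have h5 : (if ⌊1 / M⌋₊ < e then (1 / (2 * M)) * ((e : ℝ) ^ 2)⁻¹ else 0) =
          (1 / (2 * M)) * ((e : ℝ) ^ 2)⁻¹ := if_pos (not_le.1 hN)
      have h6 : ((F.filter (fun p => p.1 = e)).card : ℝ) * (1 / (e : ℝ) ^ 2) ≤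
          (1 / (2 * M)) * ((e : ℝ) ^ 2)⁻¹ := by
        rw [one_div ((e : ℝ) ^ 2)]
        exact mul_le_mul_of_nonneg_right h1 (by positivity)
      linarith

lemma sum_SM {M : ℝ} (hM : 0 < M) (hM2 : M ≤ 1 / 2) (F : Finset (ℕ × ℕ))
    (hF : ∀ p ∈ F, p ∈ SM y K M) : ∑ p ∈ F, (1 : ℝ) / (p.1 : ℝ) ^ 2 ≤ K + 31 := by
  classical
  have h0 : ∑ p ∈ F, (1 : ℝ) / (p.1 : ℝ) ^ 2 =
      ∑ e ∈ F.image Prod.fst, ((F.filter (fun p => p.1 = e)).card : ℝ) * (1 / (e : ℝ) ^ 2) := by
    have := Finset.sum_comp (s := F) (fun e : ℕ => (1 : ℝ) / (e : ℝ) ^ 2) Prod.fst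
    rw [this]
    exact Finset.sum_congr rfl fun e _ => by rw [nsmul_eq_mul]
  rw [h0]
  refine (Finset.sum_le_sum fun e he => fiber_SM hM F hF e he).trans ?_
  rw [Finset.sum_add_distrib, Finset.sum_add_distrib]
  obtain ⟨E, hE⟩ : ∃ E, E = F.image Prod.fst := ⟨_, rfl⟩
  have hE1 : ∀ e ∈ E, 1 ≤ e := by
    intro e he
    rw [hE, Finset.mem_image] at he
    obtain ⟨p, hp, rfl⟩ := he
    have := hF p hp
    have h1 := this.1
    have h2 := this.2.1
    omega
  rw [← hE]
  obtain ⟨N0, hN0⟩ : ∃ N0, N0 = ⌊1 / M⌋₊ := ⟨_, rfl⟩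
  rw [← hN0]
  have hN0le : (N0 : ℝ) ≤ 1 / M := hN0 ▸ Nat.floor_le (by positivity)
  have h2M : 1 ≤ 1 / (2 * M) := by rw [le_div_iff₀ (by positivity)]; linarith
  have hN0ge : 1 / (2 * M) ≤ (N0 : ℝ) := by
    have h1 := Nat.lt_floor_add_one (1 / M)
    rw [← hN0] at h1
    have h2 : 1 / M = 1 / (2 * M) + 1 / (2 * M) := by field_simp; ring
    linarith
  have hN01 : 1 ≤ N0 := by
    have : (1 : ℝ) ≤ N0 := h2M.trans hN0ge
    exact_mod_cast this
  have p1 : ∑ e ∈ E, (if e ≤ K then (1 : ℝ) else 0) ≤ K := by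
    rw [← Finset.sum_filter, Finset.sum_const, nsmul_eq_mul, mul_one]
    have h1 : (E.filter (fun e => e ≤ K)).card ≤ (Finset.Icc 1 K).card := by
      refine Finset.card_le_card fun e he => ?_
      rw [Finset.mem_filter] at he
      exact Finset.mem_Icc.2 ⟨hE1 e he.1, he.2⟩
    rw [Nat.card_Icc, Nat.add_sub_cancel] at h1
    exact_mod_cast h1
  have p2 : ∑ e ∈ E, (if e ≤ N0 then 30 * M else 0) ≤ 30 := by
    rw [← Finset.sum_filter, Finset.sum_const, nsmul_eq_mul]
    have h1 : (E.filter (fun e => e ≤ N0)).card ≤ (Finset.Icc 1 N0).card := by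
      refine Finset.card_le_card fun e he => ?_
      rw [Finset.mem_filter] at he
      exact Finset.mem_Icc.2 ⟨hE1 e he.1, he.2⟩
    rw [Nat.card_Icc, Nat.add_sub_cancel] at h1
    have h2 : ((E.filter (fun e => e ≤ N0)).card : ℝ) ≤ 1 / M :=
      le_trans (by exact_mod_cast h1) hN0le
    calc ((E.filter (fun e => e ≤ N0)).card : ℝ) * (30 * M) ≤ 1 / M * (30 * M) :=
          mul_le_mul_of_nonneg_right h2 (by positivity)
      _ = 30 := by field_simp
  have p3 : ∑ e ∈ E, (if N0 < e then (1 / (2 * M)) * ((e : ℝ) ^ 2)⁻¹ else 0) ≤ 1 := by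
    rw [← Finset.sum_filter, ← Finset.mul_sum]
    have h1 : ∑ e ∈ E.filter (fun e => N0 < e), ((e : ℝ) ^ 2)⁻¹ ≤
        ∑ e ∈ Finset.Ioc N0 (max N0 (E.sup id)), ((e : ℝ) ^ 2)⁻¹ := by
      refine Finset.sum_le_sum_of_subset_of_nonneg ?_ fun e _ _ => by positivity
      intro e he
      rw [Finset.mem_filter] at he
      exact Finset.mem_Ioc.2 ⟨he.2, (Finset.le_sup (f := id) he.1).trans (le_max_right _ _)⟩
    have h2 := sum_Ioc_inv_sq_le_sub (α := ℝ) (k := N0) (n := max N0 (E.sup id)) (by omega)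
      (le_max_left _ _)
    have h3 : (0 : ℝ) ≤ ((max N0 (E.sup id) : ℕ) : ℝ)⁻¹ := by positivity
    have h4 : ∑ e ∈ E.filter (fun e => N0 < e), ((e : ℝ) ^ 2)⁻¹ ≤ (N0 : ℝ)⁻¹ := by linarith
    have h5 : (N0 : ℝ)⁻¹ ≤ 2 * M := by
      rw [inv_le_comm₀ (by exact_mod_cast hN01) (by positivity), ← one_div]
      exact hN0ge
    calc 1 / (2 * M) * ∑ e ∈ E.filter (fun e => N0 < e), ((e : ℝ) ^ 2)⁻¹
        ≤ 1 / (2 * M) * (2 * M) := mul_le_mul_of_nonneg_left (h4.trans h5) (by positivity)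
      _ = 1 := by field_simp
  linarith

/-- reduced pair -/
def pr (u v : ℕ) : ℕ × ℕ := (max u v / Nat.gcd u v, min u v / Nat.gcd u v)

open Classical in
/-- weight of a bad overlap, attributed to `u` -/
noncomputable def W (y : ℝ × ℝ) (K : ℕ) (ψ : ℕ → ℝ) (u v : ℕ) : ℝ :=
  if v ≠ u ∧ 1 ≤ v ∧ 0 < ψ u ∧ pr u v ∈ SM y K (ψ u) then
    ψ u ^ 2 * (1 / ((pr u v).1 : ℝ) ^ 2) else 0

lemma W_nonneg (ψ : ℕ → ℝ) (u v : ℕ) : 0 ≤ W y K ψ u v := by
  unfold W
  split_ifs
  · positivity
  · exact le_rfl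

lemma sum_W {ψ : ℕ → ℝ} {u : ℕ} (hu : 1 ≤ u) (hψ : ψ u ≤ 1 / 2) (T : Finset ℕ) :
    ∑ v ∈ T, W y K ψ u v ≤ 2 * (K + 31) * ψ u ^ 2 := by
  classical
  by_cases h0 : 0 < ψ u
  · have hsplit : ∀ v, W y K ψ u v ≤
        (if (v < u ∧ 1 ≤ v ∧ pr u v ∈ SM y K (ψ u)) then
          ψ u ^ 2 * (1 / ((pr u v).1 : ℝ) ^ 2) else 0) +
        (if (u < v ∧ pr u v ∈ SM y K (ψ u)) then
          ψ u ^ 2 * (1 / ((pr u v).1 : ℝ) ^ 2) else 0) := by
      intro v
      have hn : (0 : ℝ) ≤ ψ u ^ 2 * (1 / ((pr u v).1 : ℝ) ^ 2) := by positivity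
      unfold W
      split_ifs with h1 h2 h3 h3 h2 h3 h3
      · linarith
      · linarith
      · linarith
      · exfalso
        rcases lt_or_gt_of_ne h1.1 with h | h
        · exact h2 ⟨h, h1.2.1, h1.2.2.2⟩
        · exact h3 ⟨h, h1.2.2.2⟩
      · linarith
      · linarith
      · linarith
      · linarith
    refine (Finset.sum_le_sum fun v _ => hsplit v).trans ?_
    rw [Finset.sum_add_distrib, ← Finset.sum_filter, ← Finset.sum_filter, ← Finset.mul_sum,
      ← Finset.mul_sum]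
    have q1 : ∑ v ∈ T.filter (fun v => v < u ∧ 1 ≤ v ∧ pr u v ∈ SM y K (ψ u)),
        ((1 : ℝ) / ((pr u v).1 : ℝ) ^ 2) ≤ (K : ℝ) + 31 := by
      have hinj : Set.InjOn (pr u) (T.filter (fun v => v < u ∧ 1 ≤ v ∧
          pr u v ∈ SM y K (ψ u)) : Set ℕ) := by
        intro v hv v' hv' hvv
        rw [Finset.mem_coe, Finset.mem_filter] at hv hv'
        obtain ⟨-, hv1, hv2, -⟩ := hv
        obtain ⟨-, hv1', hv2', -⟩ := hv'
        unfold pr at hvv
        rw [max_eq_left hv1.le, min_eq_right hv1.le, max_eq_left hv1'.le, min_eq_right hv1'.le,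
          Prod.mk.injEq] at hvv
        obtain ⟨e1, e2⟩ := hvv
        have hg1 := Nat.gcd_dvd_left u v
        have hg1' := Nat.gcd_dvd_left u v'
        have hg2 := Nat.gcd_dvd_right u v
        have hg2' := Nat.gcd_dvd_right u v'
        have hgg : Nat.gcd u v = Nat.gcd u v' := by
          have a1 := Nat.div_mul_cancel hg1
          have a2 := Nat.div_mul_cancel hg1'
          rw [e1] at a1
          have hpos : 0 < u / Nat.gcd u v' := Nat.div_pos (Nat.le_of_dvd (by omega) hg1')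
            (Nat.gcd_pos_of_pos_left _ (by omega))
          exact Nat.eq_of_mul_eq_mul_left hpos (a1.trans a2.symm)
        have a1 := Nat.div_mul_cancel hg2
        have a2 := Nat.div_mul_cancel hg2'
        rw [e2, hgg, a2] at a1
        exact a1.symm
      have h1 := sum_SM h0 hψ ((T.filter (fun v => v < u ∧ 1 ≤ v ∧
          pr u v ∈ SM y K (ψ u))).image (pr u)) (y := y) (K := K) (by
        intro p hp
        rw [Finset.mem_image] at hp
        obtain ⟨v, hv, rfl⟩ := hp
        rw [Finset.mem_filter] at hv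
        exact hv.2.2.2)
      rwa [Finset.sum_image hinj] at h1
    have q2 : ∑ v ∈ T.filter (fun v => u < v ∧ pr u v ∈ SM y K (ψ u)),
        ((1 : ℝ) / ((pr u v).1 : ℝ) ^ 2) ≤ (K : ℝ) + 31 := by
      have hinj : Set.InjOn (pr u) (T.filter (fun v => u < v ∧
          pr u v ∈ SM y K (ψ u)) : Set ℕ) := by
        intro v hv v' hv' hvv
        rw [Finset.mem_coe, Finset.mem_filter] at hv hv'
        obtain ⟨-, hv1, -⟩ := hv
        obtain ⟨-, hv1', -⟩ := hv'
        unfold pr at hvv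
        rw [max_eq_right hv1.le, min_eq_left hv1.le, max_eq_right hv1'.le, min_eq_left hv1'.le,
          Prod.mk.injEq] at hvv
        obtain ⟨e1, e2⟩ := hvv
        have hg1 := Nat.gcd_dvd_left u v
        have hg1' := Nat.gcd_dvd_left u v'
        have hg2 := Nat.gcd_dvd_right u v
        have hg2' := Nat.gcd_dvd_right u v'
        have hgg : Nat.gcd u v = Nat.gcd u v' := by
          have a1 := Nat.div_mul_cancel hg1
          have a2 := Nat.div_mul_cancel hg1'
          rw [e2] at a1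
          have hpos : 0 < u / Nat.gcd u v' := Nat.div_pos (Nat.le_of_dvd (by omega) hg1')
            (Nat.gcd_pos_of_pos_left _ (by omega))
          exact Nat.eq_of_mul_eq_mul_left hpos (a1.trans a2.symm)
        have a1 := Nat.div_mul_cancel hg2
        have a2 := Nat.div_mul_cancel hg2'
        rw [e1, hgg, a2] at a1
        exact a1.symm
      have h1 := sum_SM h0 hψ ((T.filter (fun v => u < v ∧
          pr u v ∈ SM y K (ψ u))).image (pr u)) (y := y) (K := K) (by
        intro p hp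
        rw [Finset.mem_image] at hp
        obtain ⟨v, hv, rfl⟩ := hp
        rw [Finset.mem_filter] at hv
        exact hv.2.2)
      rwa [Finset.sum_image hinj] at h1
    have h2 : 0 ≤ ψ u ^ 2 := by positivity
    have h3 := mul_le_mul_of_nonneg_left q1 h2
    have h4 := mul_le_mul_of_nonneg_left q2 h2
    linarith
  · have h1 : ∀ v ∈ T, W y K ψ u v = 0 := by
      intro v _
      unfold W
      rw [if_neg]
      intro h
      exact h0 h.2.2.1
    rw [Finset.sum_congr rfl h1, Finset.sum_const_zero]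
    positivity

end Pool.Agent.K3h25.Kh
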