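import Pool.Agent.K3h25.Kh.Local

set_option autoImplicit false
open Finset MeasureTheory

namespace Pool.Agent.K3h25.Kh

variable {y : ℝ × ℝ} {K : ℕ}

lemma vol_ball (x : ℝ × ℝ) {r : ℝ} (hr : 0 ≤ r) :
    volume (Metric.ball x r) = ENNReal.ofReal (4 * r ^ 2) := by
  obtain ⟨a, b⟩ := x
  rw [← ball_prod_same, Measure.volume_eq_prod, Measure.prod_prod, Real.volume_ball,
    Real.volume_ball, ← ENNReal.ofReal_mul (by positivity)]
  congr 1
  ring

lemma vol_closedBall (x : ℝ × ℝ) {r : ℝ} (hr : 0 ≤ r) :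
    volume (Metric.closedBall x r) = ENNReal.ofReal (4 * r ^ 2) := by
  obtain ⟨a, b⟩ := x
  rw [← closedBall_prod_same, Measure.volume_eq_prod, Measure.prod_prod, Real.volume_closedBall,
    Real.volume_closedBall, ← ENNReal.ofReal_mul (by positivity)]
  congr 1
  ring

/-- the square of the numerator `a` -/
noncomputable def cen (y : ℝ × ℝ) (q : ℕ) (a : ℤ × ℤ) : ℝ × ℝ :=
  (((a.1 : ℝ) + y.1) / q, ((a.2 : ℝ) + y.2) / q)

lemma mem_ball_cen {q : ℕ} (hq : 1 ≤ q) {a : ℤ × ℤ} {s : ℝ} {x : ℝ × ℝ}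
    (hx : x ∈ Metric.ball (cen y q a) (s / q)) :
    |(q : ℝ) * x.1 - (a.1 : ℝ) - y.1| < s ∧ |(q : ℝ) * x.2 - (a.2 : ℝ) - y.2| < s := by
  have hq' : (0 : ℝ) < q := by exact_mod_cast hq
  have gen : ∀ X u α : ℝ, |X - (u + α) / q| < s / q → |q * X - u - α| < s := by
    intro X u α h
    rw [lt_div_iff₀ hq'] at h
    have e1 : |X - (u + α) / q| * q = |q * X - u - α| := by
      conv_lhs => rw [← abs_of_pos hq', ← abs_mul]
      rw [abs_of_pos hq']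
      congr 1
      field_simp
      ring
    rw [← e1]
    exact h
  have h : dist x (cen y q a) < s / q := hx
  rw [Prod.dist_eq, max_lt_iff, Real.dist_eq, Real.dist_eq] at h
  exact ⟨gen _ _ _ h.1, gen _ _ _ h.2⟩

open Classical in
lemma local_lb (hK : 1 ≤ K) (hT : T y K ≤ 1 / 16) (x0 : ℝ × ℝ) {ρ : ℝ} (hρ : 0 < ρ)
    (hsub : Metric.closedBall x0 ρ ⊆ Set.Icc (0 : ℝ × ℝ) 1) :
    ∃ q0 : ℕ, ∀ q : ℕ, q0 ≤ q → ∀ s : ℝ, 0 ≤ s → s ≤ 1 / 2 →
      ENNReal.ofReal (2 * ρ ^ 2 * s ^ 2) ≤ volume (Aq y K q s ∩ Metric.closedBall x0 ρ) := by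
  have h1 : ∀ᶠ q : ℕ in Filter.atTop, T y q < ρ ^ 2 / 16 :=
    (T_tendsto y).eventually (gt_mem_nhds (by positivity))
  have h2 : ∀ᶠ q : ℕ in Filter.atTop, 2 / ρ ≤ (q : ℝ) :=
    tendsto_natCast_atTop_atTop.eventually_ge_atTop _
  obtain ⟨q0, hq0⟩ := Filter.eventually_atTop.1 (h1.and (h2.and (Filter.eventually_ge_atTop 1)))
  refine ⟨q0, fun q hq s hs0 hs2 => ?_⟩
  obtain ⟨hTq, hqρ, hq1⟩ := hq0 q hq
  have hq' : (0 : ℝ) < q := by exact_mod_cast hq1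
  rw [div_le_iff₀ hρ] at hqρ
  obtain ⟨n, hn⟩ : ∃ n : ℕ, n = ⌊2 * ρ * q - 1⌋₊ := ⟨_, rfl⟩
  have hn1 : (n : ℝ) ≤ 2 * ρ * q - 1 := hn ▸ Nat.floor_le (by nlinarith)
  have hn2 : ρ * q ≤ n := by
    have := Nat.lt_floor_add_one (2 * ρ * q - 1)
    rw [← hn] at this
    nlinarith
  obtain ⟨A, hA⟩ : ∃ A : ℤ, A = ⌈q * x0.1 - y.1 - ρ * q + 1 / 2⌉ := ⟨_, rfl⟩
  obtain ⟨B, hB⟩ : ∃ B : ℤ, B = ⌈q * x0.2 - y.2 - ρ * q + 1 / 2⌉ := ⟨_, rfl⟩
  obtain ⟨S, hS⟩ : ∃ S : Finset (ℤ × ℤ), S = (Box A B n).filter (fun a => a ∈ Sel y K q) :=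
    ⟨_, rfl⟩
  have hScard := sel_card (y := y) hK hq1 n A B
  rw [← hS] at hScard
  have hScard2 : (n : ℝ) ^ 2 / 2 ≤ (S.card : ℝ) := by
    have e1 : 2 * (q : ℝ) ^ 2 * T y q ≤ (n : ℝ) ^ 2 / 8 := by
      have e2 : (ρ * q) ^ 2 ≤ (n : ℝ) ^ 2 := pow_le_pow_left₀ (by positivity) hn2 2
      have e3 : 2 * (q : ℝ) ^ 2 * T y q ≤ 2 * (q : ℝ) ^ 2 * (ρ ^ 2 / 16) :=
        mul_le_mul_of_nonneg_left hTq.le (by positivity)
      nlinarith
    have e4 : 2 * (n : ℝ) ^ 2 * T y K ≤ 2 * (n : ℝ) ^ 2 * (1 / 16) :=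
      mul_le_mul_of_nonneg_left hT (by positivity)
    nlinarith [sq_nonneg (n : ℝ)]
  -- the union of the squares
  have hsub2 : (⋃ a ∈ S, Metric.ball (cen y q a) (s / q)) ⊆
      Aq y K q s ∩ Metric.closedBall x0 ρ := by
    intro x hx
    simp only [Set.mem_iUnion, exists_prop] at hx
    obtain ⟨a, haS, hxa⟩ := hx
    have hm := mem_ball_cen hq1 hxa
    rw [hS, Finset.mem_filter, mem_Box] at haS
    obtain ⟨⟨⟨ha1, ha2⟩, hb1, hb2⟩, hsel⟩ := haS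
    have gen : ∀ (X X0 α : ℝ) (u C : ℤ), C = ⌈q * X0 - α - ρ * q + 1 / 2⌉ → C ≤ u → u < C + n →
        |q * X - u - α| < s → |X - X0| ≤ ρ := by
      intro X X0 α u C hC h1 h2 h3
      have h4 : q * X0 - α - ρ * q + 1 / 2 ≤ u := by
        have e1 := Int.le_ceil (q * X0 - α - ρ * q + 1 / 2)
        rw [← hC] at e1
        have e2 : (C : ℝ) ≤ u := by exact_mod_cast h1
        linarith
      have h5 : (u : ℝ) ≤ q * X0 - α + ρ * q - 1 / 2 := by
        have e1 := Int.ceil_lt_add_one (q * X0 - α - ρ * q + 1 / 2)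
        rw [← hC] at e1
        have e2 : (u : ℝ) + 1 ≤ C + n := by exact_mod_cast h2
        linarith
      rw [abs_lt] at h3
      have h6 : |q * (X - X0)| ≤ q * ρ := by
        rw [abs_le]
        constructor
        · nlinarith [h3.1]
        · nlinarith [h3.2]
      rw [abs_mul, abs_of_pos hq'] at h6
      exact le_of_mul_le_mul_left h6 hq'
    have hxc : x ∈ Metric.closedBall x0 ρ := by
      rw [Metric.mem_closedBall, Prod.dist_eq, Real.dist_eq, Real.dist_eq]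
      exact max_le (gen _ _ _ _ _ hA ha1 ha2 hm.1) (gen _ _ _ _ _ hB hb1 hb2 hm.2)
    exact ⟨⟨hsub hxc, a, hsel, hm⟩, hxc⟩
  refine le_trans ?_ (measure_mono hsub2)
  have hdisj : (S : Set (ℤ × ℤ)).PairwiseDisjoint (fun a => Metric.ball (cen y q a) (s / q)) := by
    intro a _ b _ hab
    rw [Function.onFun, Set.disjoint_left]
    intro x hxa hxb
    have hma := mem_ball_cen hq1 hxa
    have hmb := mem_ball_cen hq1 hxb
    apply hab
    have gen : ∀ (X α : ℝ) (u v : ℤ), |q * X - u - α| < s → |q * X - v - α| < s → u = v := by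
      intro X α u v h1 h2
      have h3 : |((u - v : ℤ) : ℝ)| < 1 := by
        push_cast
        have e1 : (u : ℝ) - v = (q * X - v - α) - (q * X - u - α) := by ring
        rw [e1]
        refine (abs_sub _ _).trans_lt ?_
        linarith
      rw [← Int.cast_abs] at h3
      have h4 := Int.abs_lt_one_iff.1 (show |u - v| < 1 by exact_mod_cast h3)
      omega
    exact Prod.ext (gen _ _ _ _ hma.1 hmb.1) (gen _ _ _ _ hma.2 hmb.2)
  rw [measure_biUnion_finset hdisj (fun a _ => Metric.isOpen_ball.measurableSet),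
    Finset.sum_congr rfl fun a _ => vol_ball (cen y q a) (by positivity : 0 ≤ s / q),
    Finset.sum_const, nsmul_eq_mul, ← ENNReal.ofReal_natCast,
    ← ENNReal.ofReal_mul (Nat.cast_nonneg _)]
  refine ENNReal.ofReal_le_ofReal ?_
  have e1 : (0 : ℝ) ≤ 4 * (s / q) ^ 2 := by positivity
  calc 2 * ρ ^ 2 * s ^ 2 = (ρ * q) ^ 2 / 2 * (4 * (s / q) ^ 2) := by field_simp; ring
    _ ≤ (n : ℝ) ^ 2 / 2 * (4 * (s / q) ^ 2) := by
        refine mul_le_mul_of_nonneg_right ?_ e1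
        have : (ρ * q) ^ 2 ≤ (n : ℝ) ^ 2 := pow_le_pow_left₀ (by positivity) hn2 2
        linarith
    _ ≤ S.card * (4 * (s / q) ^ 2) := mul_le_mul_of_nonneg_right hScard2 e1

end Pool.Agent.K3h25.Kh
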