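import Pool.Agent.K3h25.Kh.DSum

set_option autoImplicit false
open Finset MeasureTheory

namespace Pool.Agent.K3h25.Kh

variable {y : ℝ × ℝ} {K : ℕ}

lemma Aq_measurable (q : ℕ) (s : ℝ) : MeasurableSet (Aq y K q s) := by
  have h1 : Aq y K q s = Set.Icc (0 : ℝ × ℝ) 1 ∩ ⋃ a ∈ Sel y K q,
      ({x : ℝ × ℝ | |(q : ℝ) * x.1 - (a.1 : ℝ) - y.1| < s} ∩
        {x : ℝ × ℝ | |(q : ℝ) * x.2 - (a.2 : ℝ) - y.2| < s}) := by
    ext x
    simp only [Aq, Set.mem_inter_iff, Set.mem_iUnion, Set.mem_ofPred_eq, exists_prop]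
  rw [h1]
  refine isClosed_Icc.measurableSet.inter ?_
  refine MeasurableSet.biUnion (Set.to_countable _) fun a _ => ?_
  refine MeasurableSet.inter ?_ ?_
  · exact (isOpen_lt (by fun_prop) (by fun_prop)).measurableSet
  · exact (isOpen_lt (by fun_prop) (by fun_prop)).measurableSet

lemma Aq_subset (q : ℕ) (s : ℝ) : Aq y K q s ⊆ Set.Icc (0 : ℝ × ℝ) 1 := fun _ hx => hx.1

lemma vol_Icc : volume (Set.Icc (0 : ℝ × ℝ) 1) = 1 := by
  have h : Set.Icc (0 : ℝ × ℝ) 1 = Set.Icc (0 : ℝ) 1 ×ˢ Set.Icc (0 : ℝ) 1 := by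
    rw [Set.Icc_prod_Icc]; rfl
  rw [h, Measure.volume_eq_prod, Measure.prod_prod, Real.volume_Icc]
  norm_num

/-- the overlap -/
noncomputable def V (y : ℝ × ℝ) (K : ℕ) (ψ : ℕ → ℝ) (q r : ℕ) : ℝ :=
  (volume (Aq y K q (ψ q) ∩ Aq y K r (ψ r))).toReal

lemma V_symm (ψ : ℕ → ℝ) (q r : ℕ) : V y K ψ q r = V y K ψ r q := by
  unfold V
  rw [Set.inter_comm]

lemma V_le_lt {ψ : ℕ → ℝ} (h0 : ∀ q, 0 ≤ ψ q) (h1 : ∀ q, ψ q ≤ 1 / 2) {q r : ℕ} (hr : 1 ≤ r)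
    (hrq : r < q) :
    V y K ψ q r ≤ 1024 * (ψ q ^ 2 * ψ r ^ 2) + 64 * W y K ψ q r + 64 * W y K ψ r q := by
  have hW1 := W_nonneg (y := y) (K := K) ψ q r
  have hW2 := W_nonneg (y := y) (K := K) ψ r q
  have hV0 : 0 ≤ 1024 * (ψ q ^ 2 * ψ r ^ 2) := by positivity
  obtain ⟨d, hd⟩ : ∃ d, d = Nat.gcd q r := ⟨_, rfl⟩
  have hdpos : 1 ≤ d := by rw [hd]; exact Nat.gcd_pos_of_pos_right _ (by omega)
  obtain ⟨e, he⟩ : ∃ e, e = q / d := ⟨_, rfl⟩
  obtain ⟨f, hf⟩ : ∃ f, f = r / d := ⟨_, rfl⟩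
  have hqe : q = d * e := by rw [he]; exact (Nat.mul_div_cancel' (hd ▸ Nat.gcd_dvd_left q r)).symm
  have hrf : r = d * f := by rw [hf]; exact (Nat.mul_div_cancel' (hd ▸ Nat.gcd_dvd_right q r)).symm
  have hf1 : 1 ≤ f := by
    rcases Nat.eq_zero_or_pos f with h | h
    · rw [h, mul_zero] at hrf; omega
    · exact h
  have hfe : f < e := by
    rw [hqe, hrf] at hrq
    exact Nat.lt_of_mul_lt_mul_left hrq
  have he1 : 1 ≤ e := by omega
  have hcop : Nat.Coprime e f := by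
    rw [he, hf, hd]
    exact Nat.coprime_div_gcd_div_gcd (Nat.gcd_pos_of_pos_right _ (by omega))
  have hpr : pr q r = (e, f) := by
    unfold pr
    rw [max_eq_left hrq.le, min_eq_right hrq.le, ← hd, ← he, ← hf]
  have hpr' : pr r q = (e, f) := by
    unfold pr
    rw [max_eq_right hrq.le, min_eq_left hrq.le, Nat.gcd_comm r q, ← hd, ← he, ← hf]
  have hf' : (0 : ℝ) < f := by exact_mod_cast hf1
  have he' : (0 : ℝ) < e := by exact_mod_cast he1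
  have hfe' : (f : ℝ) < e := by exact_mod_cast hfe
  rcases le_or_gt (1 / 2) (f * ψ q + e * ψ r) with hD | hD
  · have h3 := overlap_big (y := y) (K := K) hdpos he1 hf1 hcop (h0 q) (h1 q) (h0 r) hD
    rw [← hqe, ← hrf] at h3
    have h4 : V y K ψ q r ≤ 1024 * (ψ q ^ 2 * ψ r ^ 2) :=
      ENNReal.toReal_le_of_le_ofReal hV0 h3
    linarith
  · rcases Set.eq_empty_or_nonempty (Aq y K q (ψ q) ∩ Aq y K r (ψ r)) with hem | ⟨x, hx1, hx2⟩
    · have : V y K ψ q r = 0 := by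
        unfold V
        rw [hem, measure_empty, ENNReal.toReal_zero]
      rw [this]
      linarith
    · have hψq : 0 < ψ q := by
        obtain ⟨-, a, -, ha, -⟩ := hx1
        exact (abs_nonneg _).trans_lt ha
      have hψr : 0 < ψ r := by
        obtain ⟨-, a, -, ha, -⟩ := hx2
        exact (abs_nonneg _).trans_lt ha
      have hx1' : x ∈ Aq y K (d * e) (ψ q) := by rw [← hqe]; exact hx1
      have hx2' : x ∈ Aq y K (d * f) (ψ r) := by rw [← hrf]; exact hx2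
      rcases le_total (ψ r) (ψ q) with h | h
      · have h3 := structureP hf1 hfe hcop (h0 q) (h0 r) le_rfl h hD hx1' hx2'
        have h4 := overlap_small (y := y) (K := K) hdpos he1 hf1 hcop (h0 q) (h1 q) (h0 r)
          (le_refl (ψ q)) hD
        rw [← hqe, ← hrf] at h4
        have h5 : V y K ψ q r ≤ 64 * (ψ q ^ 2 * (1 / (e : ℝ) ^ 2)) :=
          ENNReal.toReal_le_of_le_ofReal (by positivity) h4
        have h6 : W y K ψ q r = ψ q ^ 2 * (1 / (e : ℝ) ^ 2) := by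
          unfold W
          rw [if_pos, hpr]
          refine ⟨by omega, hr, hψq, ?_⟩
          rw [hpr]
          refine ⟨hf1, hfe, ?_, h3.2.imp id fun h => ⟨h3.1, h⟩⟩
          simp only
          have : 0 ≤ e * ψ r := by positivity
          linarith
        rw [h6]
        linarith
      · have h3 := structureP hf1 hfe hcop (h0 q) (h0 r) h le_rfl hD hx1' hx2'
        have h4 := overlap_small (y := y) (K := K) hdpos he1 hf1 hcop (h0 q) (h1 q) (h0 r)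
          h hD
        rw [← hqe, ← hrf] at h4
        have h5 : V y K ψ q r ≤ 64 * (ψ r ^ 2 * (1 / (e : ℝ) ^ 2)) :=
          ENNReal.toReal_le_of_le_ofReal (by positivity) h4
        have h6 : W y K ψ r q = ψ r ^ 2 * (1 / (e : ℝ) ^ 2) := by
          unfold W
          rw [if_pos, hpr']
          refine ⟨by omega, by omega, hψr, ?_⟩
          rw [hpr']
          refine ⟨hf1, hfe, ?_, h3.2.imp id fun h => ⟨h3.1, h⟩⟩
          simp only
          have : 0 ≤ f * ψ q := by positivity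
          have : f * ψ r ≤ e * ψ r := mul_le_mul_of_nonneg_right hfe'.le (h0 r)
          linarith
        rw [h6]
        linarith

lemma V_le {ψ : ℕ → ℝ} (h0 : ∀ q, 0 ≤ ψ q) (h1 : ∀ q, ψ q ≤ 1 / 2) {q r : ℕ} (hq : 1 ≤ q)
    (hr : 1 ≤ r) :
    V y K ψ q r ≤ (if q = r then 144 * ψ q ^ 2 else 0) + 1024 * (ψ q ^ 2 * ψ r ^ 2) +
      64 * W y K ψ q r + 64 * W y K ψ r q := by
  have hW1 := W_nonneg (y := y) (K := K) ψ q r
  have hW2 := W_nonneg (y := y) (K := K) ψ r q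
  have hV0 : 0 ≤ 1024 * (ψ q ^ 2 * ψ r ^ 2) := by positivity
  rcases lt_trichotomy q r with h | h | h
  · rw [if_neg h.ne, V_symm]
    have := V_le_lt (y := y) (K := K) h0 h1 hq h
    linarith [mul_comm (ψ q ^ 2) (ψ r ^ 2)]
  · subst h
    rw [if_pos rfl]
    have h3 : V y K ψ q q ≤ 144 * ψ q ^ 2 :=
      ENNReal.toReal_le_of_le_ofReal (by positivity) (diag_le hq (h0 q) (h1 q))
    linarith
  · rw [if_neg h.ne']
    have := V_le_lt (y := y) (K := K) h0 h1 hr h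
    linarith

/-- the `L²` bound -/
lemma sum_V {ψ : ℕ → ℝ} (h0 : ∀ q, 0 ≤ ψ q) (h1 : ∀ q, ψ q ≤ 1 / 2) (T : Finset ℕ)
    (hT : ∀ q ∈ T, 1 ≤ q) :
    ∑ q ∈ T, ∑ r ∈ T, V y K ψ q r ≤
      1024 * (∑ q ∈ T, ψ q ^ 2) ^ 2 + (144 + 256 * (K + 31)) * ∑ q ∈ T, ψ q ^ 2 := by
  classical
  have hb : ∑ q ∈ T, ∑ r ∈ T, V y K ψ q r ≤ ∑ q ∈ T, ∑ r ∈ T,
      ((if q = r then 144 * ψ q ^ 2 else 0) + 1024 * (ψ q ^ 2 * ψ r ^ 2) +
      64 * W y K ψ q r + 64 * W y K ψ r q) :=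
    Finset.sum_le_sum fun q hq => Finset.sum_le_sum fun r hr =>
      V_le h0 h1 (hT q hq) (hT r hr)
  refine hb.trans ?_
  simp only [Finset.sum_add_distrib]
  have e1 : ∑ q ∈ T, ∑ r ∈ T, (if q = r then 144 * ψ q ^ 2 else 0) =
      144 * ∑ q ∈ T, ψ q ^ 2 := by
    rw [Finset.mul_sum]
    refine Finset.sum_congr rfl fun q hq => ?_
    rw [Finset.sum_ite_eq, if_pos hq]
  have e2 : ∑ q ∈ T, ∑ r ∈ T, 1024 * (ψ q ^ 2 * ψ r ^ 2) = 1024 * (∑ q ∈ T, ψ q ^ 2) ^ 2 := by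
    rw [sq, Finset.sum_mul_sum, Finset.mul_sum]
    refine Finset.sum_congr rfl fun q _ => ?_
    rw [Finset.mul_sum]
  have e3 : ∑ q ∈ T, ∑ r ∈ T, 64 * W y K ψ q r ≤ 128 * (K + 31) * ∑ q ∈ T, ψ q ^ 2 := by
    rw [Finset.mul_sum]
    refine Finset.sum_le_sum fun q hq => ?_
    rw [← Finset.mul_sum]
    have := sum_W (y := y) (K := K) (hT q hq) (h1 q) T
    linarith
  have e4 : ∑ q ∈ T, ∑ r ∈ T, 64 * W y K ψ r q ≤ 128 * (K + 31) * ∑ q ∈ T, ψ q ^ 2 := by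
    rw [Finset.sum_comm]
    exact e3
  rw [e1, e2]
  linarith

end Pool.Agent.K3h25.Kh
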