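import Mathlib

set_option autoImplicit false
open Finset

namespace Pool.Agent.K3h25.Kh

lemma round_unique {x : ℝ} {z : ℤ} (h : |x - z| < 1 / 2) : round x = z := by
  have h1 := abs_sub_round x
  have h2 : |((round x - z : ℤ) : ℝ)| < 1 := by
    push_cast
    have e : (round x : ℝ) - z = (x - z) - (x - round x) := by ring
    rw [e]
    calc |(x - z) - (x - round x)| ≤ |x - z| + |x - round x| := abs_sub _ _
      _ < 1 := by linarith
  rw [← Int.cast_abs] at h2
  have h3 : |round x - z| < 1 := by exact_mod_cast h2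
  have h4 := Int.abs_lt_one_iff.1 h3
  omega

lemma lemA (α : ℝ) (e : ℕ) (η : ℝ) (J : Finset ℕ)
    (hJ : ∀ j, j ∈ J ↔ 1 ≤ j ∧ j < e ∧ |(j : ℝ) * α - round ((j : ℝ) * α)| < η)
    {j₁ j₂ : ℕ} (h1 : j₁ ∈ J) (h2 : j₂ ∈ J)
    (hne : (j₁ : ℤ) * round ((j₂ : ℝ) * α) ≠ (j₂ : ℤ) * round ((j₁ : ℝ) * α)) :
    (J.card : ℝ) ≤ 15 * e * η := by
  classical
  have hJne : J.Nonempty := ⟨j₁, h1⟩
  obtain ⟨c, hc, hcmin⟩ : ∃ c ∈ J, ∀ j ∈ J, c ≤ j := ⟨J.min' hJne, J.min'_mem hJne,
    fun j hj => J.min'_le j hj⟩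
  obtain ⟨H, hH⟩ : ∃ H : ℕ → ℤ, ∀ j : ℕ, H j = round ((j : ℝ) * α) := ⟨_, fun _ => rfl⟩
  rw [← hH, ← hH] at hne
  have hJ' : ∀ j ∈ J, 1 ≤ j ∧ j < e ∧ |(H j : ℝ) - j * α| < η := by
    intro j hj
    obtain ⟨x1, x2, x3⟩ := (hJ j).1 hj
    rw [← hH, abs_sub_comm] at x3
    exact ⟨x1, x2, x3⟩
  obtain ⟨hc1, hce, hcη⟩ := hJ' c hc
  have hη : 0 < η := (abs_nonneg _).trans_lt hcη
  -- primitivity
  have hgcd : Int.gcd (H c) c = 1 := by
    have hgpos : 0 < Int.gcd (H c) c := Int.gcd_pos_of_ne_zero_right _ (by omega)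
    obtain ⟨g, hg⟩ : ∃ g, g = Int.gcd (H c) c := ⟨_, rfl⟩
    rw [← hg] at hgpos ⊢
    have hd1 : (g : ℤ) ∣ H c := hg ▸ Int.gcd_dvd_left ..
    have hd2 : g ∣ c := by
      have : (g : ℤ) ∣ (c : ℤ) := hg ▸ Int.gcd_dvd_right ..
      exact_mod_cast this
    obtain ⟨a', ha'⟩ := hd1
    obtain ⟨c', hc'⟩ := hd2
    have hc'1 : 1 ≤ c' := by
      rcases Nat.eq_zero_or_pos c' with h | h
      · rw [h, mul_zero] at hc'; omega
      · exact h
    have hc'le : c' ≤ c := by
      rw [hc']; exact Nat.le_mul_of_pos_left _ hgpos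
    have hmem : c' ∈ J := by
      rw [hJ]
      refine ⟨hc'1, by omega, ?_⟩
      refine (round_le ((c' : ℝ) * α) a').trans_lt ?_
      have e1 : (H c : ℝ) - c * α = g * (a' - c' * α) := by
        rw [ha', hc']; push_cast; ring
      rw [e1, abs_mul, Nat.abs_cast] at hcη
      rw [abs_sub_comm]
      have hg1 : (1 : ℝ) ≤ g := by exact_mod_cast hgpos
      nlinarith [abs_nonneg ((a' : ℝ) - c' * α)]
    have := hcmin c' hmem
    have h3 : g * c' ≤ 1 * c' := by rw [one_mul, ← hc']; exact this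
    have := Nat.le_of_mul_le_mul_right h3 hc'1
    omega
  obtain ⟨m, hm⟩ : ∃ m : ℕ → ℤ, ∀ j, m j = c * H j - j * H c := ⟨_, fun _ => rfl⟩
  obtain ⟨η', hη'⟩ : ∃ η', η' = |(H c : ℝ) - c * α| := ⟨_, rfl⟩
  have hη'0 : 0 ≤ η' := hη' ▸ abs_nonneg _
  rw [← hη'] at hcη
  obtain ⟨M, hM⟩ : ∃ M : ℝ, M = c * η + e * η' := ⟨_, rfl⟩
  have hmj : ∀ j ∈ J, |(m j : ℝ)| ≤ M := by
    intro j hj
    obtain ⟨x1, x2, x3⟩ := hJ' j hj
    have e1 : (m j : ℝ) = c * ((H j : ℝ) - j * α) - j * ((H c : ℝ) - c * α) := by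
      rw [hm]; push_cast; ring
    rw [e1, hM]
    refine (abs_sub _ _).trans ?_
    rw [abs_mul, abs_mul, Nat.abs_cast, Nat.abs_cast, ← hη']
    have hje : (j : ℝ) ≤ e := by exact_mod_cast x2.le
    have hc0 : (0 : ℝ) ≤ c := Nat.cast_nonneg _
    exact add_le_add (mul_le_mul_of_nonneg_left x3.le hc0) (mul_le_mul_of_nonneg_right hje hη'0)
  have hM1 : 1 ≤ M := by
    by_contra hlt
    push Not at hlt
    have hz : ∀ j ∈ J, m j = 0 := by
      intro j hj
      have h3 := (hmj j hj).trans_lt hlt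
      rw [← Int.cast_abs] at h3
      exact Int.abs_lt_one_iff.1 (by exact_mod_cast h3)
    have e1 := hz _ h1
    have e2 := hz _ h2
    rw [hm] at e1 e2
    apply hne
    have hc0 : (c : ℤ) ≠ 0 := by omega
    apply mul_left_cancel₀ hc0
    linear_combination (j₁ : ℤ) * e2 - (j₂ : ℤ) * e1
  -- the number of lines
  have himg : (((J.image m).card : ℕ) : ℝ) ≤ 3 * M := by
    have hsub : J.image m ⊆ Finset.Icc (-⌊M⌋) ⌊M⌋ := by
      intro x hx
      rw [Finset.mem_image] at hx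
      obtain ⟨j, hj, rfl⟩ := hx
      have h3 := abs_le.1 (hmj j hj)
      rw [Finset.mem_Icc]
      constructor
      · have : -m j ≤ ⌊M⌋ := Int.le_floor.2 (by push_cast; linarith [h3.1])
        omega
      · exact Int.le_floor.2 h3.2
    have hcard := Finset.card_le_card hsub
    rw [Int.card_Icc] at hcard
    have hfl : 0 ≤ ⌊M⌋ := Int.floor_nonneg.2 (by linarith)
    have h3 : ((J.image m).card : ℤ) ≤ 2 * ⌊M⌋ + 1 := by
      have : ((⌊M⌋ + 1 - -⌊M⌋).toNat : ℤ) = 2 * ⌊M⌋ + 1 := by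
        rw [Int.toNat_of_nonneg (by omega)]; ring
      omega
    have h4 : ((J.image m).card : ℝ) ≤ 2 * ⌊M⌋ + 1 := by exact_mod_cast h3
    have h5 := Int.floor_le M
    linarith
  -- the number of points on a line
  obtain ⟨P, hP1, hP2⟩ : ∃ P : ℕ, (∀ b ∈ J.image m, (J.filter (fun j => m j = b)).card ≤ P) ∧
      ((P : ℝ) * c ≤ 2 * e ∧ (P : ℝ) * η' ≤ 3 * η) := by
    have hfib : ∀ b ∈ J.image m, (((J.filter (fun j => m j = b)).card : ℕ) : ℝ) * c ≤ 2 * e ∧
        (((J.filter (fun j => m j = b)).card : ℕ) : ℝ) * η' ≤ 3 * η := by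
      intro b hb
      obtain ⟨F, hF⟩ : ∃ F : Finset ℕ, F = J.filter (fun j => m j = b) := ⟨_, rfl⟩
      rw [← hF]
      have hFne : F.Nonempty := by
        rw [Finset.mem_image] at hb
        obtain ⟨j, hj, hjb⟩ := hb
        exact ⟨j, hF ▸ Finset.mem_filter.2 ⟨hj, hjb⟩⟩
      obtain ⟨j0, hj0, hj0min⟩ : ∃ c ∈ F, ∀ j ∈ F, c ≤ j := ⟨F.min' hFne, F.min'_mem hFne,
        fun j hj => F.min'_le j hj⟩
      obtain ⟨j1, hj1, hj1max⟩ : ∃ c ∈ F, ∀ j ∈ F, j ≤ c := ⟨F.max' hFne, F.max'_mem hFne,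
        fun j hj => F.le_max' j hj⟩
      have hFJ : ∀ j ∈ F, j ∈ J ∧ m j = b := fun j hj => Finset.mem_filter.1 (hF ▸ hj)
      have hlin : ∀ j ∈ F, (c : ℤ) * (H j - H j0) = ((j : ℤ) - j0) * H c := by
        intro j hj
        have e1 := (hFJ j hj).2
        have e2 := (hFJ j0 hj0).2
        rw [hm] at e1 e2
        linear_combination e1 - e2
      have hdvd : ∀ j ∈ F, c ∣ j - j0 := by
        intro j hj
        have e1 : (c : ℤ) ∣ ((j : ℤ) - j0) * H c := ⟨_, (hlin j hj).symm⟩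
        have e2 : IsCoprime (c : ℤ) (H c) := by
          rw [Int.isCoprime_iff_gcd_eq_one, Int.gcd_comm]
          exact hgcd
        have e3 := e2.dvd_of_dvd_mul_right e1
        have e4 : (j0 : ℤ) ≤ j := by exact_mod_cast hj0min j hj
        rw [← Nat.cast_sub (hj0min j hj)] at e3
        exact_mod_cast e3
      obtain ⟨L, hL⟩ := hdvd j1 hj1
      have hcardF : F.card ≤ L + 1 := by
        have : F.card ≤ (Finset.range (L + 1)).card := by
          refine Finset.card_le_card_of_injOn (fun j => (j - j0) / c) ?_ ?_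
          · intro j hj
            have hjF : j ∈ F := hj
            rw [Finset.coe_range, Set.mem_Iio]
            have : (j - j0) / c ≤ L := by
              rw [← Nat.mul_div_cancel_left L (show 0 < c by omega), ← hL]
              exact Nat.div_le_div_right (Nat.sub_le_sub_right (hj1max j hjF) _)
            simp only
            omega
          · intro j hj j' hj' hjj
            have hjF : j ∈ F := hj
            have hjF' : j' ∈ F := hj'
            obtain ⟨l, hl⟩ := hdvd j hjF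
            obtain ⟨l', hl'⟩ := hdvd j' hjF'
            simp only at hjj
            rw [hl, hl', Nat.mul_div_cancel_left _ (by omega),
              Nat.mul_div_cancel_left _ (by omega)] at hjj
            rw [hjj, ← hl'] at hl
            have := hj0min j hjF
            have := hj0min j' hjF'
            omega
        rwa [Finset.card_range] at this
      have hcardF' : (F.card : ℝ) ≤ L + 1 := by exact_mod_cast hcardF
      have hj01 : j0 ≤ j1 := hj0min j1 hj1
      obtain ⟨x1, x2, x3⟩ := hJ' j1 (hFJ j1 hj1).1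
      obtain ⟨z1, z2, z3⟩ := hJ' j0 (hFJ j0 hj0).1
      have hLc : L * c + 1 ≤ e := by
        have : L * c = j1 - j0 := by rw [hL, mul_comm]
        omega
      have hLc' : (L : ℝ) * c + 1 ≤ e := by exact_mod_cast hLc
      have hce' : (c : ℝ) + 1 ≤ e := by exact_mod_cast hce
      have hc0 : (0 : ℝ) ≤ c := Nat.cast_nonneg _
      constructor
      · calc (F.card : ℝ) * c ≤ (L + 1) * c := mul_le_mul_of_nonneg_right hcardF' hc0
          _ ≤ 2 * e := by linarith
      · have hLη : (L : ℝ) * η' ≤ 2 * η := by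
          have e1 : (H j1 : ℝ) - H j0 = L * H c := by
            have e2 := hlin j1 hj1
            have e3 : ((j1 : ℤ) - j0) = c * L := by
              rw [← Nat.cast_sub hj01, hL]; push_cast; ring
            rw [e3, mul_assoc] at e2
            have hc0' : (c : ℤ) ≠ 0 := by omega
            have e4 := mul_left_cancel₀ hc0' e2
            exact_mod_cast e4
          have e5 : (j1 : ℝ) - j0 = c * L := by
            rw [← Nat.cast_sub hj01, hL]; push_cast; ring
          have e6 : (L : ℝ) * ((H c : ℝ) - c * α) = ((H j1 : ℝ) - j1 * α) - ((H j0 : ℝ) - j0 * α) := by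
            linear_combination (-1 : ℝ) * e1 + α * e5
          have e7 : (L : ℝ) * η' = |((H j1 : ℝ) - j1 * α) - ((H j0 : ℝ) - j0 * α)| := by
            rw [← e6, abs_mul, Nat.abs_cast, hη']
          rw [e7]
          refine (abs_sub _ _).trans ?_
          linarith
        calc (F.card : ℝ) * η' ≤ (L + 1) * η' := mul_le_mul_of_nonneg_right hcardF' hη'0
          _ ≤ 3 * η := by linarith
    obtain ⟨b, hb, hbmax⟩ := Finset.exists_max_image (J.image m)
      (fun b => (J.filter (fun j => m j = b)).card) (hJne.image m)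
    exact ⟨_, hbmax, hfib b hb⟩
  have hcard := Finset.card_le_mul_card_image (f := m) J P hP1
  have hcard' : (J.card : ℝ) ≤ P * ((J.image m).card : ℕ) := by exact_mod_cast hcard
  have hP0 : (0 : ℝ) ≤ P := Nat.cast_nonneg _
  have he0 : (0 : ℝ) ≤ e := Nat.cast_nonneg _
  calc (J.card : ℝ) ≤ P * ((J.image m).card : ℕ) := hcard'
    _ ≤ P * (3 * M) := mul_le_mul_of_nonneg_left himg hP0
    _ = 3 * (P * c) * η + 3 * e * (P * η') := by rw [hM]; ring
    _ ≤ 3 * (2 * e) * η + 3 * e * (3 * η) := by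
        refine add_le_add ?_ ?_
        · exact mul_le_mul_of_nonneg_right (by linarith [hP2.1]) hη.le
        · exact mul_le_mul_of_nonneg_left hP2.2 (by positivity)
    _ = 15 * e * η := by ring

end Pool.Agent.K3h25.Kh
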