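import Pool.Agent.K3h25.Kh.Best

set_option autoImplicit false
open Finset MeasureTheory

namespace Pool.Agent.K3h25.Kh

/-- the one-dimensional sets -/
def S1 (α : ℝ) (q : ℕ) (s : ℝ) : Set ℝ := {x | ∃ a : ℤ, |(q : ℝ) * x - a - α| < s}

lemma fiber_card (A : ℤ) {d e f : ℕ} (he : 1 ≤ e) (hef : Nat.Coprime e f) (h : ℤ)
    (F : Finset ℤ) (hF : ∀ a ∈ F, A ≤ a ∧ a ≤ A + d * e ∧ (e : ℤ) ∣ f * a - h) :
    F.card ≤ d + 1 := by
  have h1 : F.card ≤ (Finset.range (d + 1)).card := by
    refine Finset.card_le_card_of_injOn (fun a => ((a - A) / e).toNat) ?_ ?_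
    · intro a ha
      obtain ⟨h1, h2, -⟩ := hF a ha
      rw [Finset.coe_range, Set.mem_Iio]
      have h3 : (a - A) / e ≤ d := by
        have he' : (0 : ℤ) < e := by exact_mod_cast he
        calc (a - A) / e ≤ (d * e) / e := Int.ediv_le_ediv he' (by linarith)
          _ = d := Int.mul_ediv_cancel _ he'.ne'
      simp only
      omega
    · intro a ha a' ha' haa
      obtain ⟨h1, h2, h3⟩ := hF a ha
      obtain ⟨h1', h2', h3'⟩ := hF a' ha'
      simp only at haa
      have he' : (0 : ℤ) < e := by exact_mod_cast he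
      have h5 : 0 ≤ (a - A) / e := Int.ediv_nonneg (by omega) he'.le
      have h5' : 0 ≤ (a' - A) / e := Int.ediv_nonneg (by omega) he'.le
      have h6 : (a - A) / e = (a' - A) / e := by omega
      have h7 : (e : ℤ) ∣ f * (a - a') := by
        have e1 : (f : ℤ) * (a - a') = (f * a - h) - (f * a' - h) := by ring
        rw [e1]
        exact dvd_sub h3 h3'
      have h8 : (e : ℤ) ∣ a - a' := by
        refine IsCoprime.dvd_of_dvd_mul_left ?_ h7
        exact Nat.isCoprime_iff_coprime.2 hef
      have h9 : (a - A) % e = (a' - A) % e := by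
        apply Int.emod_emod_of_dvd _ (dvd_refl _) |>.symm.trans
        rw [Int.emod_emod_of_dvd _ (dvd_refl _)]
        apply Int.ModEq.symm
        rw [Int.modEq_iff_dvd]
        have e1 : a - A - (a' - A) = a - a' := by ring
        rw [e1]
        exact h8
      have h10 := Int.emod_add_mul_ediv (a - A) e
      have h11 := Int.emod_add_mul_ediv (a' - A) e
      rw [h9, h6, h11] at h10
      omega
  rwa [Finset.card_range] at h1

lemma lemC (α : ℝ) {d e f : ℕ} (hd : 1 ≤ d) (he : 1 ≤ e) (hf : 1 ≤ f) (hef : Nat.Coprime e f)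
    {s t : ℝ} (hs : 0 ≤ s) (hs2 : s ≤ 1 / 2) (ht : 0 ≤ t) :
    volume (Set.Icc (0 : ℝ) 1 ∩ S1 α (d * e) s ∩ S1 α (d * f) t) ≤
      ENNReal.ofReal ((2 * (f * s + e * t) + 1) * (2 * d) *
        (2 * min (s / (d * e)) (t / (d * f)))) := by
  classical
  obtain ⟨D, hD⟩ : ∃ D : ℝ, D = f * s + e * t := ⟨_, rfl⟩
  have hD0 : 0 ≤ D := by rw [hD]; positivity
  obtain ⟨z, hz⟩ : ∃ z : ℝ, z = ((e : ℝ) - f) * α := ⟨_, rfl⟩
  obtain ⟨Hs, hHs⟩ : ∃ Hs : Finset ℤ, Hs = Finset.Icc ⌈z - D⌉ ⌊z + D⌋ := ⟨_, rfl⟩
  obtain ⟨A, hA⟩ : ∃ A : ℤ, A = ⌊-α - 1 / 2⌋ + 1 := ⟨_, rfl⟩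
  obtain ⟨P, hP⟩ : ∃ P : Finset (ℤ × ℤ), P = ((Finset.Icc A (A + d * e)) ×ˢ Hs).filter
    (fun p => (e : ℤ) ∣ f * p.1 - p.2) := ⟨_, rfl⟩
  have hd' : (0 : ℝ) < d := by exact_mod_cast hd
  have he' : (0 : ℝ) < e := by exact_mod_cast he
  have hf' : (0 : ℝ) < f := by exact_mod_cast hf
  -- number of h
  have hHcard : (Hs.card : ℝ) ≤ 2 * D + 1 := by
    rw [hHs, Int.card_Icc]
    have h1 : (((⌊z + D⌋ + 1 - ⌈z - D⌉).toNat : ℤ) : ℝ) ≤ 2 * D + 1 := by
      rcases le_or_gt 0 (⌊z + D⌋ + 1 - ⌈z - D⌉) with h | h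
      · rw [Int.toNat_of_nonneg h]
        push_cast
        linarith [Int.floor_le (z + D), Int.le_ceil (z - D)]
      · rw [Int.toNat_of_nonpos h.le]
        push_cast
        linarith
    exact_mod_cast h1
  have hPcard : P.card ≤ (d + 1) * Hs.card := by
    refine Finset.card_le_mul_card_image_of_maps_to (f := Prod.snd) (t := Hs) ?_ (d + 1) ?_
    · intro p hp
      rw [hP, Finset.mem_filter, Finset.mem_product] at hp
      exact hp.1.2
    · intro h hh
      have h1 : (P.filter (fun p => p.2 = h)).card =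
          ((P.filter (fun p => p.2 = h)).image Prod.fst).card := by
        rw [Finset.card_image_of_injOn]
        intro p hp p' hp' hpp
        rw [Finset.mem_coe, Finset.mem_filter] at hp hp'
        exact Prod.ext hpp (hp.2.trans hp'.2.symm)
      rw [h1]
      refine fiber_card A he hef h _ ?_
      intro a ha
      rw [Finset.mem_image] at ha
      obtain ⟨p, hp, rfl⟩ := ha
      rw [Finset.mem_filter, hP, Finset.mem_filter, Finset.mem_product, Finset.mem_Icc] at hp
      obtain ⟨⟨⟨⟨h1, h2⟩, h3⟩, h4⟩, h5⟩ := hp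
      rw [h5] at h4
      exact ⟨h1, h2, h4⟩
  have hPcard' : (P.card : ℝ) ≤ (2 * D + 1) * (2 * d) := by
    have h1 : (P.card : ℝ) ≤ (d + 1) * Hs.card := by exact_mod_cast hPcard
    have h2 : (d : ℝ) + 1 ≤ 2 * d := by
      have : (1 : ℝ) ≤ d := by exact_mod_cast hd
      linarith
    calc (P.card : ℝ) ≤ (d + 1) * Hs.card := h1
      _ ≤ (2 * d) * (2 * D + 1) := mul_le_mul h2 hHcard (Nat.cast_nonneg _) (by positivity)
      _ = _ := by ring
  -- the covering
  have hcov : Set.Icc (0 : ℝ) 1 ∩ S1 α (d * e) s ∩ S1 α (d * f) t ⊆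
      ⋃ p ∈ P, (Metric.ball (((p.1 : ℝ) + α) / (d * e)) (s / (d * e)) ∩
        Metric.ball (((((f * p.1 - p.2) / e : ℤ) : ℝ) + α) / (d * f)) (t / (d * f))) := by
    rintro x ⟨⟨⟨hx0, hx1⟩, a, ha⟩, b, hb⟩
    push_cast at ha hb
    have hab : |((f * a - e * b : ℤ) : ℝ) - z| < D ∨ (s = 0 ∨ t = 0) := by
      left
      have e1 : ((f * a - e * b : ℤ) : ℝ) - z =
          e * ((d * f) * x - b - α) - f * ((d * e) * x - a - α) := by
        rw [hz]; push_cast; ring
      rw [e1, hD]
      refine (abs_sub _ _).trans_lt ?_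
      rw [abs_mul, abs_mul, Nat.abs_cast, Nat.abs_cast]
      have h1 : (e : ℝ) * |(d * f) * x - b - α| < e * t := mul_lt_mul_of_pos_left hb he'
      have h2 : (f : ℝ) * |(d * e) * x - a - α| < f * s := mul_lt_mul_of_pos_left ha hf'
      linarith
    rcases hab with hab | hab
    · have hmem : (a, f * a - e * b) ∈ P := by
        rw [hP, Finset.mem_filter, Finset.mem_product, Finset.mem_Icc, hHs, Finset.mem_Icc]
        rw [abs_lt] at hab ha
        have hde : (0 : ℝ) ≤ d * e * x := by positivity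
        have hde2 : d * e * x ≤ (d : ℝ) * e := by
          have : (0 : ℝ) < d * e := by positivity
          nlinarith
        refine ⟨⟨⟨?_, ?_⟩, ?_, ?_⟩, ?_⟩
        · have h1 : -α - 1 / 2 < a := by linarith [ha.2]
          have h2 : ⌊-α - 1 / 2⌋ < a := Int.floor_lt.2 h1
          simp only
          omega
        · have h1 : (a : ℝ) < d * e + (-α - 1 / 2) + 1 := by linarith [ha.1]
          have h2 : -α - 1 / 2 < A := by
            rw [hA]; push_cast; exact Int.lt_floor_add_one _
          have h3 : (a : ℝ) < ((A + d * e + 1 : ℤ) : ℝ) := by push_cast; linarith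
          have h4 : a < A + d * e + 1 := by exact_mod_cast h3
          simp only
          omega
        · exact Int.ceil_le.2 (by linarith [hab.1])
        · exact Int.le_floor.2 (by linarith [hab.2])
        · simp only
          exact ⟨b, by ring⟩
      refine Set.mem_biUnion hmem ⟨?_, ?_⟩
      · rw [Metric.mem_ball, Real.dist_eq, lt_div_iff₀ (by positivity)]
        have e1 : |x - ((a : ℝ) + α) / (d * e)| * (d * e) = |d * e * x - a - α| := by
          have h0 : (0 : ℝ) < d * e := by positivity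
          conv_lhs => rw [← abs_of_pos h0, ← abs_mul]
          rw [abs_of_pos h0]
          congr 1
          field_simp
          ring
        simp only
        rw [e1]
        exact ha
      · have e2 : ((f : ℤ) * a - (f * a - e * b)) / e = b := by
          have : (f : ℤ) * a - (f * a - e * b) = b * e := by ring
          rw [this]
          exact Int.mul_ediv_cancel _ (by exact_mod_cast he'.ne')
        rw [Metric.mem_ball, Real.dist_eq, lt_div_iff₀ (by positivity)]
        simp only
        rw [e2]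
        have e1 : |x - ((b : ℝ) + α) / (d * f)| * (d * f) = |d * f * x - b - α| := by
          have h0 : (0 : ℝ) < d * f := by positivity
          conv_lhs => rw [← abs_of_pos h0, ← abs_mul]
          rw [abs_of_pos h0]
          congr 1
          field_simp
          ring
        rw [e1]
        exact hb
    · rcases hab with h | h
      · rw [h] at ha; exact absurd ha (not_lt.2 (abs_nonneg _))
      · rw [h] at hb; exact absurd hb (not_lt.2 (abs_nonneg _))
  refine (measure_mono hcov).trans ((measure_biUnion_finset_le _ _).trans ?_)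
  have hball : ∀ p ∈ P, volume (Metric.ball (((p.1 : ℝ) + α) / (d * e)) (s / (d * e)) ∩
        Metric.ball (((((f * p.1 - p.2) / e : ℤ) : ℝ) + α) / (d * f)) (t / (d * f))) ≤
        ENNReal.ofReal (2 * min (s / (d * e)) (t / (d * f))) := by
    intro p _
    rcases le_total (s / (d * e)) (t / (d * f)) with h | h
    · rw [min_eq_left h]
      refine (measure_mono Set.inter_subset_left).trans ?_
      rw [Real.volume_ball]
    · rw [min_eq_right h]
      refine (measure_mono Set.inter_subset_right).trans ?_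
      rw [Real.volume_ball]
  refine (Finset.sum_le_sum hball).trans ?_
  rw [Finset.sum_const, nsmul_eq_mul, ← ENNReal.ofReal_natCast,
    ← ENNReal.ofReal_mul (Nat.cast_nonneg _), ← hD]
  refine ENNReal.ofReal_le_ofReal ?_
  exact mul_le_mul_of_nonneg_right hPcard' (by positivity)

end Pool.Agent.K3h25.Kh
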