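import Pool.Agent.K3h25.Kh.L2

set_option autoImplicit false
open Finset MeasureTheory

namespace Pool.Agent.K3h25.Kh

variable {y : ℝ × ℝ} {K : ℕ}

lemma resid_card (A : ℤ) {m n : ℕ} (hm : 1 ≤ m) (F : Finset ℤ)
    (hF : ∀ a ∈ F, A ≤ a ∧ a < A + n) (hF2 : ∀ a ∈ F, ∀ a' ∈ F, (m : ℤ) ∣ a - a') :
    F.card ≤ n / m + 1 := by
  have h1 : F.card ≤ (Finset.range (n / m + 1)).card := by
    have hm' : (0 : ℤ) < m := by exact_mod_cast hm
    refine Finset.card_le_card_of_injOn (fun a => ((a - A) / m).toNat) ?_ ?_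
    · intro a ha
      obtain ⟨h1, h2⟩ := hF a ha
      rw [Finset.coe_range, Set.mem_Iio]
      have h3 : (a - A) / m ≤ (n : ℤ) / m := Int.ediv_le_ediv hm' (by linarith)
      have h4 : ((n / m : ℕ) : ℤ) = (n : ℤ) / m := Int.natCast_ediv n m
      have h5 : 0 ≤ (n : ℤ) / m := Int.ediv_nonneg (by omega) hm'.le
      simp only
      omega
    · intro a ha a' ha' haa
      obtain ⟨h1, h2⟩ := hF a ha
      obtain ⟨h1', h2'⟩ := hF a' ha'
      simp only at haa
      have h5 : 0 ≤ (a - A) / m := Int.ediv_nonneg (by omega) hm'.le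
      have h5' : 0 ≤ (a' - A) / m := Int.ediv_nonneg (by omega) hm'.le
      have h6 : (a - A) / m = (a' - A) / m := by omega
      have h8 : (m : ℤ) ∣ a - a' := hF2 a ha a' ha'
      have h9 : (a - A) % m = (a' - A) % m := by
        apply Int.ModEq.symm
        rw [Int.modEq_iff_dvd]
        have e1 : a - A - (a' - A) = a - a' := by ring
        rw [e1]
        exact h8
      have h10 := Int.emod_add_mul_ediv (a - A) m
      have h11 := Int.emod_add_mul_ediv (a' - A) m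
      rw [h9, h6, h11] at h10
      omega
  rwa [Finset.card_range] at h1

lemma best_coprime {c m : ℕ} (hc : c ∈ Best y) {a : ℤ × ℤ}
    (h1 : (m : ℤ) ∣ c * a.1 + round ((c : ℝ) * y.1))
    (h2 : (m : ℤ) ∣ c * a.2 + round ((c : ℝ) * y.2)) : Nat.Coprime c m := by
  by_contra hnc
  obtain ⟨p, hp, hpc, hpm⟩ := Nat.Prime.not_coprime_iff_dvd.1 hnc
  have hpm' : (p : ℤ) ∣ m := by exact_mod_cast hpm
  have hpc' : (p : ℤ) ∣ c := by exact_mod_cast hpc
  have hs1 : (p : ℤ) ∣ round ((c : ℝ) * y.1) := by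
    have := hpm'.trans h1
    exact (dvd_add_right (hpc'.mul_right _)).1 this
  have hs2 : (p : ℤ) ∣ round ((c : ℝ) * y.2) := by
    have := hpm'.trans h2
    exact (dvd_add_right (hpc'.mul_right _)).1 this
  obtain ⟨c', rfl⟩ := hpc
  obtain ⟨s1, hs1⟩ := hs1
  obtain ⟨s2, hs2⟩ := hs2
  have hc1 := hc.1
  have hp2 := hp.two_le
  have hc'1 : 1 ≤ c' := by
    rcases Nat.eq_zero_or_pos c' with h | h
    · rw [h, mul_zero] at hc1; omega
    · exact h
  have hlt := hc.2 c' hc'1 (by nlinarith)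
  have hp1 : (1 : ℝ) ≤ p := by exact_mod_cast hp.one_le
  have hle : nd y c' ≤ nd y (p * c') := by
    refine (nd_le y c' s1 s2).trans (max_le ?_ ?_)
    · refine le_trans ?_ (le_max_left _ _)
      rw [hs1]
      push_cast
      have e1 : (p : ℝ) * c' * y.1 - p * s1 = p * (c' * y.1 - s1) := by ring
      rw [e1, abs_mul, Nat.abs_cast]
      nlinarith [abs_nonneg ((c' : ℝ) * y.1 - s1)]
    · refine le_trans ?_ (le_max_right _ _)
      rw [hs2]
      push_cast
      have e1 : (p : ℝ) * c' * y.2 - p * s2 = p * (c' * y.2 - s2) := by ring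
      rw [e1, abs_mul, Nat.abs_cast]
      nlinarith [abs_nonneg ((c' : ℝ) * y.2 - s2)]
  linarith

lemma removed_card (A B : ℤ) (n : ℕ) {c m : ℕ} (hm : 1 ≤ m) (hc : c ∈ Best y)
    (R : Finset (ℤ × ℤ)) (hR : ∀ a ∈ R, (A ≤ a.1 ∧ a.1 < A + n) ∧ (B ≤ a.2 ∧ a.2 < B + n) ∧
      (m : ℤ) ∣ c * a.1 + round ((c : ℝ) * y.1) ∧ (m : ℤ) ∣ c * a.2 + round ((c : ℝ) * y.2)) :
    R.card ≤ (n / m + 1) ^ 2 := by
  classical
  rcases R.eq_empty_or_nonempty with h | ⟨a0, ha0⟩
  · rw [h, Finset.card_empty]; positivity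
  have hcop : IsCoprime (m : ℤ) c :=
    (Nat.isCoprime_iff_coprime.2 (best_coprime hc (hR a0 ha0).2.2.1 (hR a0 ha0).2.2.2)).symm
  have h1 : R ⊆ (R.image Prod.fst) ×ˢ (R.image Prod.snd) := by
    intro a ha
    rw [Finset.mem_product]
    exact ⟨Finset.mem_image_of_mem _ ha, Finset.mem_image_of_mem _ ha⟩
  refine (Finset.card_le_card h1).trans ?_
  rw [Finset.card_product, sq]
  refine Nat.mul_le_mul ?_ ?_
  · refine resid_card A hm _ ?_ ?_
    · intro a ha
      rw [Finset.mem_image] at ha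
      obtain ⟨b, hb, rfl⟩ := ha
      exact (hR b hb).1
    · intro a ha a' ha'
      rw [Finset.mem_image] at ha ha'
      obtain ⟨b, hb, rfl⟩ := ha
      obtain ⟨b', hb', rfl⟩ := ha'
      refine hcop.dvd_of_dvd_mul_left ?_
      have := dvd_sub (hR b hb).2.2.1 (hR b' hb').2.2.1
      have e1 : (c : ℤ) * (b.1 - b'.1) = (c * b.1 + round ((c : ℝ) * y.1)) -
        (c * b'.1 + round ((c : ℝ) * y.1)) := by ring
      rw [e1]
      exact this
  · refine resid_card B hm _ ?_ ?_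
    · intro a ha
      rw [Finset.mem_image] at ha
      obtain ⟨b, hb, rfl⟩ := ha
      exact (hR b hb).2.1
    · intro a ha a' ha'
      rw [Finset.mem_image] at ha ha'
      obtain ⟨b, hb, rfl⟩ := ha
      obtain ⟨b', hb', rfl⟩ := ha'
      refine hcop.dvd_of_dvd_mul_left ?_
      have := dvd_sub (hR b hb).2.2.2 (hR b' hb').2.2.2
      have e1 : (c : ℤ) * (b.2 - b'.2) = (c * b.2 + round ((c : ℝ) * y.2)) -
        (c * b'.2 + round ((c : ℝ) * y.2)) := by ring
      rw [e1]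
      exact this

/-- a box of numerators -/
noncomputable def Box (A B : ℤ) (n : ℕ) : Finset (ℤ × ℤ) := Finset.Ico A (A + n) ×ˢ Finset.Ico B (B + n)

lemma mem_Box {A B : ℤ} {n : ℕ} {a : ℤ × ℤ} :
    a ∈ Box A B n ↔ (A ≤ a.1 ∧ a.1 < A + n) ∧ (B ≤ a.2 ∧ a.2 < B + n) := by
  rw [Box, Finset.mem_product, Finset.mem_Ico, Finset.mem_Ico]

lemma card_Box (A B : ℤ) (n : ℕ) : (Box A B n).card = n ^ 2 := by
  rw [Box, Finset.card_product, Int.card_Ico, Int.card_Ico, sq]
  congr 1 <;> omega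

open Classical in
lemma sel_card (hK : 1 ≤ K) {q : ℕ} (hq : 1 ≤ q) (n : ℕ) (A B : ℤ) :
    (n : ℝ) ^ 2 - 2 * n ^ 2 * T y K - 2 * q ^ 2 * T y q ≤
      (((Box A B n).filter (fun a => a ∈ Sel y K q)).card : ℝ) := by
  obtain ⟨BF, hBF⟩ : ∃ BF : Finset ℕ, BF = (Finset.range q).filter (fun c => c ∈ Best y) :=
    ⟨_, rfl⟩
  have hBFmem : ∀ c ∈ BF, c ∈ Best y ∧ c < q := by
    intro c hc
    rw [hBF, Finset.mem_filter, Finset.mem_range] at hc
    exact ⟨hc.2, hc.1⟩
  obtain ⟨R, hR⟩ : ∃ R : ℕ → ℕ → Finset (ℤ × ℤ), ∀ c m, R c m = (Box A B n).filter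
    (fun a => (m : ℤ) ∣ c * a.1 + round ((c : ℝ) * y.1) ∧
      (m : ℤ) ∣ c * a.2 + round ((c : ℝ) * y.2)) := ⟨_, fun _ _ => rfl⟩
  have hcov : (Box A B n).filter (fun a => a ∉ Sel y K q) ⊆
      BF.biUnion (fun c => (Finset.Ioc (max c K) q).biUnion (fun m => R c m)) := by
    intro a ha
    rw [Finset.mem_filter] at ha
    obtain ⟨ha1, ha2⟩ := ha
    rw [Sel, Set.mem_ofPred_eq] at ha2
    push Not at ha2
    obtain ⟨c, hc, m, hmq, hcm, hKm, hdv⟩ := ha2
    have hmle : m ≤ q := Nat.le_of_dvd (by omega) hmq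
    rw [Finset.mem_biUnion]
    refine ⟨c, ?_, ?_⟩
    · rw [hBF, Finset.mem_filter, Finset.mem_range]
      exact ⟨by omega, hc⟩
    · rw [Finset.mem_biUnion]
      refine ⟨m, Finset.mem_Ioc.2 ⟨max_lt hcm hKm, hmle⟩, ?_⟩
      rw [hR, Finset.mem_filter]
      exact ⟨ha1, hdv⟩
  have hcard : (((Box A B n).filter (fun a => a ∉ Sel y K q)).card : ℝ) ≤
      2 * n ^ 2 * T y K + 2 * q ^ 2 * T y q := by
    have h1 := (Finset.card_le_card hcov).trans Finset.card_biUnion_le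
    have h2 : ∀ c ∈ BF, (((Finset.Ioc (max c K) q).biUnion (fun m => R c m)).card : ℝ) ≤
        2 * n ^ 2 * (1 / (max c K : ℕ)) + 2 * q := by
      intro c hc
      have hcB := (hBFmem c hc).1
      have h3 : (((Finset.Ioc (max c K) q).biUnion (fun m => R c m)).card : ℝ) ≤
          ∑ m ∈ Finset.Ioc (max c K) q, (2 * (n : ℝ) ^ 2 * ((m : ℝ) ^ 2)⁻¹ + 2) := by
        have h4 : (((Finset.Ioc (max c K) q).biUnion (fun m => R c m)).card : ℝ) ≤
          ∑ m ∈ Finset.Ioc (max c K) q, ((R c m).card : ℝ) := by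
          exact_mod_cast Finset.card_biUnion_le
        refine h4.trans (Finset.sum_le_sum fun m hm => ?_)
        rw [Finset.mem_Ioc] at hm
        have hm1 : 1 ≤ m := by omega
        have hm' : (0 : ℝ) < m := by exact_mod_cast hm1
        have h5 := removed_card (y := y) A B n hm1 hcB (R c m) (by
          intro a ha
          rw [hR, Finset.mem_filter, mem_Box] at ha
          exact ⟨ha.1.1, ha.1.2, ha.2⟩)
        have h6 : ((R c m).card : ℝ) ≤ ((n / m : ℕ) + 1) ^ 2 := by exact_mod_cast h5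
        have h7 : ((n / m : ℕ) : ℝ) ≤ (n : ℝ) / m := Nat.cast_div_le
        have h8 : (0 : ℝ) ≤ ((n / m : ℕ) : ℝ) := Nat.cast_nonneg _
        have h9 : ((n : ℝ) / m) ^ 2 = (n : ℝ) ^ 2 * ((m : ℝ) ^ 2)⁻¹ := by
          rw [div_pow, div_eq_mul_inv]
        have h10 : (((n / m : ℕ) : ℝ)) ^ 2 ≤ ((n : ℝ) / m) ^ 2 := pow_le_pow_left₀ h8 h7 2
        nlinarith [sq_nonneg (((n / m : ℕ) : ℝ) - 1)]
      refine h3.trans ?_
      rw [Finset.sum_add_distrib, ← Finset.mul_sum, Finset.sum_const, Nat.card_Ioc, nsmul_eq_mul]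
      have hk1 : 1 ≤ max c K := le_max_of_le_right hK
      have h11 : ∑ m ∈ Finset.Ioc (max c K) q, ((m : ℝ) ^ 2)⁻¹ ≤ 1 / (max c K : ℕ) := by
        rcases le_or_gt (max c K) q with h | h
        · have := sum_Ioc_inv_sq_le_sub (α := ℝ) (k := max c K) (n := q) (by omega) h
          have h12 : (0 : ℝ) ≤ (q : ℝ)⁻¹ := by positivity
          rw [one_div]
          linarith
        · rw [Finset.Ioc_eq_empty_of_le h.le, Finset.sum_empty]
          positivity
      have h13 : ((q - max c K : ℕ) : ℝ) ≤ q := by exact_mod_cast Nat.sub_le _ _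
      have h14 : (0 : ℝ) ≤ 2 * (n : ℝ) ^ 2 := by positivity
      have := mul_le_mul_of_nonneg_left h11 h14
      linarith
    have h15 : (((Box A B n).filter (fun a => a ∉ Sel y K q)).card : ℝ) ≤
        ∑ c ∈ BF, (2 * (n : ℝ) ^ 2 * (1 / (max c K : ℕ)) + 2 * q) := by
      have h1' : (((Box A B n).filter (fun a => a ∉ Sel y K q)).card : ℝ) ≤
          ∑ c ∈ BF, (((Finset.Ioc (max c K) q).biUnion (fun m => R c m)).card : ℝ) := by
        exact_mod_cast h1
      exact h1'.trans (Finset.sum_le_sum h2)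
    refine h15.trans ?_
    rw [Finset.sum_add_distrib, ← Finset.mul_sum, Finset.sum_const, nsmul_eq_mul]
    have h16 := sum_le_T y K BF (fun c hc => (hBFmem c hc).1)
    have h17 := card_le_T y (q := q) (by omega) BF (fun c hc => ⟨(hBFmem c hc).1,
      (hBFmem c hc).2.le⟩)
    have h18 : (0 : ℝ) ≤ 2 * (n : ℝ) ^ 2 := by positivity
    have h19 := mul_le_mul_of_nonneg_left h16 h18
    have h20 : (0 : ℝ) ≤ 2 * (q : ℝ) := by positivity
    have h21 := mul_le_mul_of_nonneg_right h17 h20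
    nlinarith
  have htot : ((Box A B n).filter (fun a => a ∈ Sel y K q)).card +
      ((Box A B n).filter (fun a => a ∉ Sel y K q)).card = n ^ 2 := by
    rw [← card_Box A B n]
    exact Finset.card_filter_add_card_filter_not _
  have htot' : (((Box A B n).filter (fun a => a ∈ Sel y K q)).card : ℝ) +
      (((Box A B n).filter (fun a => a ∉ Sel y K q)).card : ℝ) = (n : ℝ) ^ 2 := by
    exact_mod_cast htot
  linarith

end Pool.Agent.K3h25.Kh
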