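import Pool.Agent.K3h25.Kh.Final

set_option autoImplicit false
open Finset MeasureTheory

namespace Pool.Agent.K3h25.Kh

lemma int_ineq (T : Finset ℕ) (A : ℕ → Set (ℝ × ℝ)) (hA : ∀ q, MeasurableSet (A q))
    (hAf : ∀ q, volume (A q) ≠ ⊤) (B E U : Set (ℝ × ℝ)) (hB : MeasurableSet B)
    (hE : MeasurableSet E) (hU : MeasurableSet U) (hBU : B ⊆ U) (hEf : volume E ≠ ⊤)
    (hUf : volume U ≠ ⊤) {M : ℝ} (hM : 0 ≤ M)
    (hEM : ∀ x ∈ E, ∑ q ∈ T, (A q).indicator (fun _ => (1 : ℝ)) x ≤ M) {l : ℝ} (hl : 0 < l) :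
    ∑ q ∈ T, (volume (A q ∩ B)).toReal ≤ M * (volume E).toReal +
      l / 2 * ∑ q ∈ T, ∑ r ∈ T, (volume (A q ∩ A r)).toReal +
      1 / (2 * l) * (volume (U \ E)).toReal := by
  classical
  have i1 : ∀ q, Integrable ((A q ∩ B).indicator (fun _ => (1 : ℝ))) volume := fun q =>
    (integrable_indicator_iff ((hA q).inter hB)).2
      (integrableOn_const (measure_ne_top_of_subset Set.inter_subset_left (hAf q)))
  have i2 : Integrable (E.indicator (fun _ => (1 : ℝ))) volume :=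
    (integrable_indicator_iff hE).2 (integrableOn_const hEf)
  have i3 : ∀ q r, Integrable ((A q ∩ A r).indicator (fun _ => (1 : ℝ))) volume := fun q r =>
    (integrable_indicator_iff ((hA q).inter (hA r))).2
      (integrableOn_const (measure_ne_top_of_subset Set.inter_subset_left (hAf q)))
  have i4 : Integrable ((U \ E).indicator (fun _ => (1 : ℝ))) volume :=
    (integrable_indicator_iff (hU.diff hE)).2
      (integrableOn_const (measure_ne_top_of_subset Set.sdiff_subset hUf))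
  have e1 : ∑ q ∈ T, (volume (A q ∩ B)).toReal =
      ∫ x, ∑ q ∈ T, (A q ∩ B).indicator (fun _ => (1 : ℝ)) x := by
    rw [integral_finsetSum _ fun q _ => i1 q]
    refine Finset.sum_congr rfl fun q _ => ?_
    rw [integral_indicator_const _ ((hA q).inter hB), smul_eq_mul, mul_one]
    rfl
  have e2 : M * (volume E).toReal +
      l / 2 * ∑ q ∈ T, ∑ r ∈ T, (volume (A q ∩ A r)).toReal +
      1 / (2 * l) * (volume (U \ E)).toReal =
      ∫ x, (M * E.indicator (fun _ => (1 : ℝ)) x +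
      l / 2 * ∑ q ∈ T, ∑ r ∈ T, (A q ∩ A r).indicator (fun _ => (1 : ℝ)) x +
      1 / (2 * l) * (U \ E).indicator (fun _ => (1 : ℝ)) x) := by
    have j3 : Integrable (fun x => ∑ q ∈ T, ∑ r ∈ T,
        (A q ∩ A r).indicator (fun _ => (1 : ℝ)) x) volume :=
      integrable_finsetSum _ fun q _ => integrable_finsetSum _ fun r _ => i3 q r
    have J1 : Integrable (fun x => M * E.indicator (fun _ => (1 : ℝ)) x) volume := i2.const_mul M
    have J2 : Integrable (fun x => l / 2 * ∑ q ∈ T, ∑ r ∈ T,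
        (A q ∩ A r).indicator (fun _ => (1 : ℝ)) x) volume := j3.const_mul _
    have J3 : Integrable (fun x => 1 / (2 * l) * (U \ E).indicator (fun _ => (1 : ℝ)) x) volume :=
      i4.const_mul _
    have J12 : Integrable (fun x => M * E.indicator (fun _ => (1 : ℝ)) x + l / 2 * ∑ q ∈ T,
        ∑ r ∈ T, (A q ∩ A r).indicator (fun _ => (1 : ℝ)) x) volume := J1.add J2
    have a1 : ∫ x, M * E.indicator (fun _ => (1 : ℝ)) x = M * (volume E).toReal := by
      rw [integral_const_mul, integral_indicator_const _ hE, smul_eq_mul, mul_one]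
      rfl
    have a3 : ∫ x, 1 / (2 * l) * (U \ E).indicator (fun _ => (1 : ℝ)) x =
        1 / (2 * l) * (volume (U \ E)).toReal := by
      rw [integral_const_mul, integral_indicator_const _ (hU.diff hE), smul_eq_mul, mul_one]
      rfl
    have a2 : ∫ x, l / 2 * ∑ q ∈ T, ∑ r ∈ T, (A q ∩ A r).indicator (fun _ => (1 : ℝ)) x =
        l / 2 * ∑ q ∈ T, ∑ r ∈ T, (volume (A q ∩ A r)).toReal := by
      rw [integral_const_mul, integral_finsetSum _ fun q _ =>
        integrable_finsetSum _ fun r _ => i3 q r]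
      congr 1
      refine Finset.sum_congr rfl fun q _ => ?_
      rw [integral_finsetSum _ fun r _ => i3 q r]
      refine Finset.sum_congr rfl fun r _ => ?_
      rw [integral_indicator_const _ ((hA q).inter (hA r)), smul_eq_mul, mul_one]
      rfl
    rw [integral_add J12 J3, integral_add J1 J2, a1, a2, a3]
  rw [e1, e2]
  refine integral_mono (integrable_finsetSum _ fun q _ => i1 q) ?_ ?_
  · refine Integrable.add (Integrable.add (i2.const_mul M) ?_) (i4.const_mul _)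
    exact (integrable_finsetSum _ fun q _ => integrable_finsetSum _ fun r _ => i3 q r).const_mul _
  · intro x
    simp only
    obtain ⟨g, hg⟩ : ∃ g : ℝ, g = ∑ q ∈ T, (A q).indicator (fun _ => (1 : ℝ)) x := ⟨_, rfl⟩
    have hgg : ∑ q ∈ T, ∑ r ∈ T, (A q ∩ A r).indicator (fun _ => (1 : ℝ)) x = g ^ 2 := by
      rw [sq, hg, Finset.sum_mul_sum]
      refine Finset.sum_congr rfl fun q _ => Finset.sum_congr rfl fun r _ => ?_
      by_cases hq : x ∈ A q <;> by_cases hr : x ∈ A r <;> simp [hq, hr]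
    rw [hgg]
    have hE0 : 0 ≤ E.indicator (fun _ => (1 : ℝ)) x := Set.indicator_nonneg (fun _ _ => zero_le_one) _
    have hU0 : 0 ≤ (U \ E).indicator (fun _ => (1 : ℝ)) x :=
      Set.indicator_nonneg (fun _ _ => zero_le_one) _
    have hl2 : 0 ≤ l / 2 * g ^ 2 := by positivity
    have hME : 0 ≤ M * E.indicator (fun _ => (1 : ℝ)) x := mul_nonneg hM hE0
    have hUE : 0 ≤ 1 / (2 * l) * (U \ E).indicator (fun _ => (1 : ℝ)) x :=
      mul_nonneg (by positivity) hU0
    by_cases hxB : x ∈ B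
    · have e4 : ∑ q ∈ T, (A q ∩ B).indicator (fun _ => (1 : ℝ)) x = g := by
        rw [hg]
        refine Finset.sum_congr rfl fun q _ => ?_
        by_cases hq : x ∈ A q
        · rw [Set.indicator_of_mem hq, Set.indicator_of_mem (Set.mem_inter hq hxB)]
        · rw [Set.indicator_of_notMem hq, Set.indicator_of_notMem fun h => hq h.1]
      rw [e4]
      by_cases hxE : x ∈ E
      · have e5 := hEM x hxE
        rw [← hg] at e5
        have e6 : E.indicator (fun _ => (1 : ℝ)) x = 1 := Set.indicator_of_mem hxE _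
        rw [e6] at hME ⊢
        linarith
      · have e6 : (U \ E).indicator (fun _ => (1 : ℝ)) x = 1 :=
          Set.indicator_of_mem (Set.mem_sdiff_of_mem (hBU hxB) hxE) _
        rw [e6]
        have e7 : g ≤ l / 2 * g ^ 2 + 1 / (2 * l) := by
          have e8 : l / 2 * g ^ 2 + 1 / (2 * l) - g = (l * g - 1) ^ 2 / (2 * l) := by
            field_simp
            ring
          have e9 : 0 ≤ (l * g - 1) ^ 2 / (2 * l) := by positivity
          linarith
        linarith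
    · have e4 : ∑ q ∈ T, (A q ∩ B).indicator (fun _ => (1 : ℝ)) x = 0 := by
        refine Finset.sum_eq_zero fun q _ => ?_
        exact Set.indicator_of_notMem (fun h => hxB h.2) _
      rw [e4]
      linarith

/-- the open unit square -/
def U0 : Set (ℝ × ℝ) := Set.Ioo (0 : ℝ) 1 ×ˢ Set.Ioo (0 : ℝ) 1

lemma U0_open : IsOpen U0 := isOpen_Ioo.prod isOpen_Ioo

lemma U0_subset : U0 ⊆ Set.Icc (0 : ℝ × ℝ) 1 := by
  rintro x ⟨h1, h2⟩
  exact ⟨⟨h1.1.le, h2.1.le⟩, ⟨h1.2.le, h2.2.le⟩⟩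

lemma vol_U0 : volume U0 = 1 := by
  rw [U0, Measure.volume_eq_prod, Measure.prod_prod, Real.volume_Ioo]
  norm_num

open Classical in
lemma null_E {y : ℝ × ℝ} {K : ℕ} (hK : 1 ≤ K) (hT : T y K ≤ 1 / 16) {ψ : ℕ → ℝ}
    (h0 : ∀ q, 0 ≤ ψ q) (h1 : ∀ q, ψ q ≤ 1 / 2) (hdiv : ¬ Summable (fun q => ψ q ^ 2)) (M : ℕ) :
    volume {x | x ∈ U0 ∧ ∀ Q : ℕ, ∑ q ∈ Finset.Icc 1 Q,
      (Aq y K q (ψ q)).indicator (fun _ => (1 : ℝ)) x ≤ M} = 0 := by
  obtain ⟨E, hEdef⟩ : ∃ E : Set (ℝ × ℝ), E = {x | x ∈ U0 ∧ ∀ Q : ℕ, ∑ q ∈ Finset.Icc 1 Q,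
      (Aq y K q (ψ q)).indicator (fun _ => (1 : ℝ)) x ≤ M} := ⟨_, rfl⟩
  rw [← hEdef]
  have hEm : MeasurableSet E := by
    have : E = U0 ∩ ⋂ Q : ℕ, {x | ∑ q ∈ Finset.Icc 1 Q,
      (Aq y K q (ψ q)).indicator (fun _ => (1 : ℝ)) x ≤ M} := by
      rw [hEdef]
      ext x
      simp
    rw [this]
    refine U0_open.measurableSet.inter (MeasurableSet.iInter fun Q => ?_)
    refine measurableSet_le ?_ measurable_const
    exact Finset.measurable_sum _ fun q _ => measurable_const.indicator (Aq_measurable q (ψ q))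
  have hEU0 : E ⊆ U0 := by rw [hEdef]; exact fun x hx => hx.1
  have hEf : volume E ≠ ⊤ := measure_ne_top_of_subset hEU0 (by rw [vol_U0]; exact ENNReal.one_ne_top)
  by_contra hpos
  obtain ⟨μ, hμ⟩ : ∃ μ : ℝ, μ = (volume E).toReal := ⟨_, rfl⟩
  have hμpos : 0 < μ := by rw [hμ]; exact ENNReal.toReal_pos hpos hEf
  have hμE : volume E = ENNReal.ofReal μ := by rw [hμ, ENNReal.ofReal_toReal hEf]
  have hμ1 : μ ≤ 1 := by
    rw [hμ]
    have := ENNReal.toReal_mono ENNReal.one_ne_top (vol_U0 ▸ measure_mono hEU0 :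
      volume E ≤ 1)
    simpa using this
  obtain ⟨C, hC⟩ : ∃ C : ℝ, C = 1024 + (144 + 256 * (K + 31)) := ⟨_, rfl⟩
  have hCpos : 0 < C := by rw [hC]; positivity
  obtain ⟨ε, hε⟩ : ∃ ε : ℝ, ε = μ ^ 2 / (32 * C) := ⟨_, rfl⟩
  have hεpos : 0 < ε := by rw [hε]; positivity
  -- an open set
  obtain ⟨U', hU'E, hU'o, -, hU'd⟩ := hEm.exists_isOpen_sdiff_lt hEf
    (ENNReal.ofReal_pos.2 hεpos).ne'
  obtain ⟨U, hU⟩ : ∃ U, U = U' ∩ U0 := ⟨_, rfl⟩
  have hUo : IsOpen U := by rw [hU]; exact hU'o.inter U0_open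
  have hUU0 : U ⊆ U0 := by rw [hU]; exact Set.inter_subset_right
  have hEU : E ⊆ U := by rw [hU]; exact Set.subset_inter hU'E hEU0
  have hUd : volume (U \ E) < ENNReal.ofReal ε :=
    (measure_mono (Set.sdiff_subset_sdiff_left (by rw [hU]; exact Set.inter_subset_left))).trans_lt
      hU'd
  have hUf : volume U ≠ ⊤ := measure_ne_top_of_subset hUU0 (by rw [vol_U0]; exact ENNReal.one_ne_top)
  have hUd' : (volume (U \ E)).toReal ≤ ε :=
    ENNReal.toReal_le_of_le_ofReal hεpos.le hUd.le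
  -- radii
  have hR : ∀ x : ℝ × ℝ, ∃ R : ℝ, 0 < R ∧ (x ∈ E → Metric.ball x R ⊆ U) := by
    intro x
    by_cases hx : x ∈ E
    · obtain ⟨R, hR, hR2⟩ := Metric.isOpen_iff.1 hUo x (hEU hx)
      exact ⟨R, hR, fun _ => hR2⟩
    · exact ⟨1, one_pos, fun h => absurd h hx⟩
  choose R hRpos hRsub using hR
  obtain ⟨t, r, htc, htE, htr, htcov, htd⟩ := Besicovitch.exists_disjoint_closedBall_covering_ae
    (volume : Measure (ℝ × ℝ)) (fun _ => Set.univ) E (fun x _ δ hδ => ⟨δ / 2, Set.mem_univ _,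
      by constructor <;> linarith⟩) R (fun x _ => hRpos x)
  have htr' : ∀ x ∈ t, 0 < r x ∧ Metric.closedBall x (r x) ⊆ U := by
    intro x hx
    obtain ⟨-, h2, h3⟩ := htr x hx
    exact ⟨h2, (Metric.closedBall_subset_ball h3).trans (hRsub x (htE hx))⟩
  -- a finite subfamily
  have hsum : ENNReal.ofReal (μ / 2) < ∑' x : t, volume (Metric.closedBall (x : ℝ × ℝ) (r x)) := by
    have e1 : volume (⋃ x ∈ t, Metric.closedBall x (r x)) =
        ∑' x : t, volume (Metric.closedBall (x : ℝ × ℝ) (r x)) :=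
      measure_biUnion htc htd (fun x _ => Metric.isClosed_closedBall.measurableSet)
    rw [← e1]
    have e2 : volume E ≤ volume (⋃ x ∈ t, Metric.closedBall x (r x)) := by
      have e3 := measure_le_inter_add_sdiff volume E (⋃ x ∈ t, Metric.closedBall x (r x))
      rw [htcov, add_zero] at e3
      exact e3.trans (measure_mono Set.inter_subset_right)
    refine lt_of_lt_of_le ?_ e2
    rw [hμE]
    exact (ENNReal.ofReal_lt_ofReal_iff hμpos).2 (by linarith)
  rw [ENNReal.tsum_eq_iSup_sum, lt_iSup_iff] at hsum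
  obtain ⟨t', ht'⟩ := hsum
  -- thresholds
  have hq0 : ∀ x : t, ∃ q0 : ℕ, ∀ q : ℕ, q0 ≤ q → ENNReal.ofReal (2 * r x ^ 2 * ψ q ^ 2) ≤
      volume (Aq y K q (ψ q) ∩ Metric.closedBall (x : ℝ × ℝ) (r x)) := by
    intro x
    obtain ⟨h2, h3⟩ := htr' x x.2
    obtain ⟨q0, hq0⟩ := local_lb (y := y) hK hT (x : ℝ × ℝ) h2 ((h3.trans hUU0).trans U0_subset)
    exact ⟨q0, fun q hq => hq0 q hq (ψ q) (h0 q) (h1 q)⟩
  choose q0 hq0 using hq0
  obtain ⟨q1, hq1⟩ : ∃ q1, q1 = t'.sup q0 := ⟨_, rfl⟩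
  obtain ⟨B, hB⟩ : ∃ B : Set (ℝ × ℝ), B = ⋃ x ∈ t', Metric.closedBall (x : ℝ × ℝ) (r x) :=
    ⟨_, rfl⟩
  have hBm : MeasurableSet B := by
    rw [hB]
    exact Finset.measurableSet_biUnion _ fun x _ => Metric.isClosed_closedBall.measurableSet
  have hBU : B ⊆ U := by
    rw [hB]
    exact Set.iUnion₂_subset fun x _ => (htr' x x.2).2
  obtain ⟨β, hβ⟩ : ∃ β : ℝ, β = ∑ x ∈ t', 4 * r x ^ 2 := ⟨_, rfl⟩
  have hβμ : μ / 2 < β := by
    have e1 : ∑ x ∈ t', volume (Metric.closedBall (x : ℝ × ℝ) (r x)) = ENNReal.ofReal β := by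
      rw [hβ, ENNReal.ofReal_sum_of_nonneg fun x _ => by positivity]
      exact Finset.sum_congr rfl fun x _ => vol_closedBall _ (htr' x x.2).1.le
    rw [e1] at ht'
    exact (ENNReal.ofReal_lt_ofReal_iff_of_nonneg (by positivity)).1 ht'
  have hAB : ∀ q : ℕ, q1 ≤ q → β / 2 * ψ q ^ 2 ≤ (volume (Aq y K q (ψ q) ∩ B)).toReal := by
    intro q hq
    have e1 : volume (Aq y K q (ψ q) ∩ B) =
        ∑ x ∈ t', volume (Aq y K q (ψ q) ∩ Metric.closedBall (x : ℝ × ℝ) (r x)) := by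
      rw [hB, Set.inter_iUnion₂]
      refine measure_biUnion_finset ?_ fun x _ => (Aq_measurable q (ψ q)).inter
        Metric.isClosed_closedBall.measurableSet
      intro x _ x' _ hxx
      have := htd x.2 x'.2 (fun h => hxx (Subtype.ext h))
      exact this.mono Set.inter_subset_right Set.inter_subset_right
    have e2 : ENNReal.ofReal (β / 2 * ψ q ^ 2) ≤ volume (Aq y K q (ψ q) ∩ B) := by
      rw [e1]
      have e3 : β / 2 * ψ q ^ 2 = ∑ x ∈ t', 2 * r x ^ 2 * ψ q ^ 2 := by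
        rw [hβ, Finset.sum_div, Finset.sum_mul]
        exact Finset.sum_congr rfl fun x _ => by ring
      rw [e3, ENNReal.ofReal_sum_of_nonneg fun x _ => by positivity]
      refine Finset.sum_le_sum fun x hx => hq0 x q ?_
      exact (Finset.le_sup hx).trans (hq1 ▸ hq)
    refine (ENNReal.ofReal_le_iff_le_toReal ?_).1 e2
    exact measure_ne_top_of_subset ((Set.inter_subset_left).trans (Aq_subset q (ψ q)))
      (by rw [vol_Icc]; exact ENNReal.one_ne_top)
  -- the main inequality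
  have hAf : ∀ q, volume (Aq y K q (ψ q)) ≠ ⊤ := fun q =>
    measure_ne_top_of_subset (Aq_subset q (ψ q)) (by rw [vol_Icc]; exact ENNReal.one_ne_top)
  obtain ⟨S, hS⟩ : ∃ S : ℕ → ℝ, ∀ Q, S Q = ∑ q ∈ Finset.Icc 1 Q, ψ q ^ 2 := ⟨_, fun _ => rfl⟩
  have hSnn : ∀ Q, 0 ≤ S Q := fun Q => by rw [hS]; positivity
  have hmain : ∀ Q : ℕ, q1 ≤ Q → 1 ≤ S Q →
      β / 2 * (S Q - S q1) ≤ M + μ / 8 * (S Q + 1) + μ / 16 * S Q := by
    intro Q hQ hSQ
    have hSpos : 0 < S Q := by linarith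
    have hl : 0 < μ / (4 * C) / S Q := by positivity
    have key := int_ineq (Finset.Icc 1 Q) (fun q => Aq y K q (ψ q))
      (fun q => Aq_measurable q (ψ q)) hAf B E U hBm hEm hUo.measurableSet hBU hEf hUf
      (Nat.cast_nonneg M) (fun x hx => by rw [hEdef] at hx; exact hx.2 Q) hl
    have k1 : β / 2 * (S Q - S q1) ≤
        ∑ q ∈ Finset.Icc 1 Q, (volume (Aq y K q (ψ q) ∩ B)).toReal := by
      have k2 : S Q - S q1 = ∑ q ∈ Finset.Icc (q1 + 1) Q, ψ q ^ 2 := by
        have k3 : S Q = S q1 + ∑ q ∈ Finset.Icc (q1 + 1) Q, ψ q ^ 2 := by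
          rw [hS, hS]
          have k4 : Finset.Icc 1 Q = Finset.Icc 1 q1 ∪ Finset.Icc (q1 + 1) Q := by
            ext z
            simp only [Finset.mem_Icc, Finset.mem_union]
            omega
          rw [k4, Finset.sum_union]
          rw [Finset.disjoint_left]
          intro z hz hz'
          rw [Finset.mem_Icc] at hz hz'
          omega
        linarith
      rw [k2, Finset.mul_sum]
      calc ∑ q ∈ Finset.Icc (q1 + 1) Q, β / 2 * ψ q ^ 2
          ≤ ∑ q ∈ Finset.Icc (q1 + 1) Q, (volume (Aq y K q (ψ q) ∩ B)).toReal :=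
            Finset.sum_le_sum fun q hq => hAB q (by rw [Finset.mem_Icc] at hq; omega)
        _ ≤ _ := Finset.sum_le_sum_of_subset_of_nonneg
            (Finset.Icc_subset_Icc_left (by omega)) fun q _ _ => ENNReal.toReal_nonneg
    have k5 := sum_V (y := y) (K := K) h0 h1 (Finset.Icc 1 Q) (fun q hq => (Finset.mem_Icc.1 hq).1)
    rw [← hS] at k5
    unfold V at k5
    have k6 : ∑ q ∈ Finset.Icc 1 Q, ∑ r ∈ Finset.Icc 1 Q,
        (volume (Aq y K q (ψ q) ∩ Aq y K r (ψ r))).toReal ≤ C * (S Q * (S Q + 1)) := by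
      refine k5.trans ?_
      have hKnn : (0 : ℝ) ≤ K := Nat.cast_nonneg _
      rw [hC]
      nlinarith [mul_nonneg hKnn hSpos.le, mul_nonneg hKnn (sq_nonneg (S Q)), sq_nonneg (S Q)]
    have k7 : μ / (4 * C) / S Q / 2 * (C * (S Q * (S Q + 1))) = μ / 8 * (S Q + 1) := by
      field_simp
      ring
    have k8 : 1 / (2 * (μ / (4 * C) / S Q)) * ε = μ / 16 * S Q := by
      rw [hε]
      field_simp
      ring
    have k9 := mul_le_mul_of_nonneg_left k6 (show 0 ≤ μ / (4 * C) / S Q / 2 by positivity)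
    have k10 := mul_le_mul_of_nonneg_left hUd'
      (show 0 ≤ 1 / (2 * (μ / (4 * C) / S Q)) by positivity)
    have k11 : (M : ℝ) * (volume E).toReal ≤ M := by
      rw [← hμ]
      exact mul_le_of_le_one_right (Nat.cast_nonneg _) hμ1
    linarith
  -- S is unbounded
  have hSunb : ∀ c : ℝ, ∃ Q : ℕ, q1 ≤ Q ∧ 1 ≤ S Q ∧ c < S Q := by
    intro c
    by_contra hno
    push Not at hno
    apply hdiv
    refine summable_of_sum_range_le (c := ψ 0 ^ 2 + max (max 1 c) (S q1)) (fun q => sq_nonneg _)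
      fun n => ?_
    have hmono : ∀ Q Q' : ℕ, Q ≤ Q' → S Q ≤ S Q' := by
      intro Q Q' h
      rw [hS, hS]
      exact Finset.sum_le_sum_of_subset_of_nonneg (Finset.Icc_subset_Icc_right h)
        fun q _ _ => sq_nonneg _
    have h3 : ∑ q ∈ Finset.range n, ψ q ^ 2 ≤ ψ 0 ^ 2 + S (max q1 n) := by
      have h4 : Finset.range n ⊆ insert 0 (Finset.Icc 1 (max q1 n)) := by
        intro z hz
        rw [Finset.mem_range] at hz
        rw [Finset.mem_insert, Finset.mem_Icc]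
        rcases Nat.eq_zero_or_pos z with h | h
        · exact Or.inl h
        · exact Or.inr ⟨h, hz.le.trans (le_max_right _ _)⟩
      refine (Finset.sum_le_sum_of_subset_of_nonneg h4 fun q _ _ => sq_nonneg _).trans ?_
      rw [Finset.sum_insert (by simp), hS]
    refine h3.trans (add_le_add le_rfl ?_)
    rcases le_or_gt 1 (S (max q1 n)) with h | h
    · exact (hno _ (le_max_left _ _) h).trans ((le_max_right _ _).trans (le_max_left _ _))
    · exact h.le.trans ((le_max_left _ _).trans (le_max_left _ _))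
  obtain ⟨Q, hQ1, hQ2, hQ3⟩ := hSunb (16 / μ * (M + μ / 8 + β / 2 * S q1))
  have hfin := hmain Q hQ1 hQ2
  rw [div_mul_eq_mul_div, div_lt_iff₀ hμpos] at hQ3
  have hβS : μ / 4 * S Q ≤ β / 2 * S Q := by
    refine mul_le_mul_of_nonneg_right (by linarith) (hSnn Q)
  nlinarith

end Pool.Agent.K3h25.Kh
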