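import Pool.Agent.K3h25.Kh.LemC

set_option autoImplicit false
open Finset MeasureTheory

namespace Pool.Agent.K3h25.Kh

/-- selected numerators -/
def Sel (y : ℝ × ℝ) (K q : ℕ) : Set (ℤ × ℤ) :=
  {a | ∀ c ∈ Best y, ∀ m : ℕ, m ∣ q → c < m → K < m →
    ¬ ((m : ℤ) ∣ c * a.1 + round ((c : ℝ) * y.1) ∧ (m : ℤ) ∣ c * a.2 + round ((c : ℝ) * y.2))}

/-- the thinned sets -/
def Aq (y : ℝ × ℝ) (K : ℕ) (q : ℕ) (s : ℝ) : Set (ℝ × ℝ) :=
  {x | x ∈ Set.Icc (0 : ℝ × ℝ) 1 ∧ ∃ a ∈ Sel y K q,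
    |(q : ℝ) * x.1 - (a.1 : ℝ) - y.1| < s ∧ |(q : ℝ) * x.2 - (a.2 : ℝ) - y.2| < s}

variable {y : ℝ × ℝ} {K : ℕ}

lemma Aq_inter_subset (q r : ℕ) (s t : ℝ) : Aq y K q s ∩ Aq y K r t ⊆
    (Set.Icc (0 : ℝ) 1 ∩ S1 y.1 q s ∩ S1 y.1 r t) ×ˢ
    (Set.Icc (0 : ℝ) 1 ∩ S1 y.2 q s ∩ S1 y.2 r t) := by
  rintro x ⟨⟨⟨hx0, hx1⟩, a, -, ha1, ha2⟩, ⟨-, b, -, hb1, hb2⟩⟩
  exact ⟨⟨⟨⟨hx0.1, hx1.1⟩, ⟨a.1, ha1⟩⟩, ⟨b.1, hb1⟩⟩, ⟨⟨⟨hx0.2, hx1.2⟩, ⟨a.2, ha2⟩⟩, ⟨b.2, hb2⟩⟩⟩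

lemma overlap_le {d e f : ℕ} (hd : 1 ≤ d) (he : 1 ≤ e) (hf : 1 ≤ f) (hef : Nat.Coprime e f)
    {s t : ℝ} (hs : 0 ≤ s) (hs2 : s ≤ 1 / 2) (ht : 0 ≤ t) {X : ℝ}
    (hX : (2 * (f * s + e * t) + 1) * (2 * d) * (2 * min (s / (d * e)) (t / (d * f))) ≤ X) :
    volume (Aq y K (d * e) s ∩ Aq y K (d * f) t) ≤ ENNReal.ofReal (X ^ 2) := by
  refine (measure_mono (Aq_inter_subset (d * e) (d * f) s t)).trans ?_
  rw [Measure.volume_eq_prod, Measure.prod_prod, sq, ENNReal.ofReal_mul']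
  · exact mul_le_mul' ((lemC y.1 hd he hf hef hs hs2 ht).trans (ENNReal.ofReal_le_ofReal hX))
      ((lemC y.2 hd he hf hef hs hs2 ht).trans (ENNReal.ofReal_le_ofReal hX))
  · refine le_trans ?_ hX
    have : (0 : ℝ) ≤ min (s / (d * e)) (t / (d * f)) := le_min (by positivity) (by positivity)
    positivity

lemma overlap_big {d e f : ℕ} (hd : 1 ≤ d) (he : 1 ≤ e) (hf : 1 ≤ f) (hef : Nat.Coprime e f)
    {s t : ℝ} (hs : 0 ≤ s) (hs2 : s ≤ 1 / 2) (ht : 0 ≤ t) (hD : 1 / 2 ≤ f * s + e * t) :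
    volume (Aq y K (d * e) s ∩ Aq y K (d * f) t) ≤ ENNReal.ofReal (1024 * (s ^ 2 * t ^ 2)) := by
  have hd' : (0 : ℝ) < d := by exact_mod_cast hd
  have he' : (0 : ℝ) < e := by exact_mod_cast he
  have hf' : (0 : ℝ) < f := by exact_mod_cast hf
  refine (overlap_le hd he hf hef hs hs2 ht (X := 32 * (s * t)) ?_).trans (le_of_eq ?_)
  · obtain ⟨μ, hμ⟩ : ∃ μ : ℝ, μ = min (s / (d * e)) (t / (d * f)) := ⟨_, rfl⟩
    have h1 : μ ≤ s / (d * e) := hμ ▸ min_le_left _ _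
    have h2 : μ ≤ t / (d * f) := hμ ▸ min_le_right _ _
    have h0 : 0 ≤ μ := hμ ▸ le_min (by positivity) (by positivity)
    rw [← hμ]
    rw [le_div_iff₀ (by positivity)] at h1 h2
    calc (2 * (f * s + e * t) + 1) * (2 * d) * (2 * μ)
        ≤ (4 * (f * s + e * t)) * (2 * d) * (2 * μ) := by
          have : 0 ≤ (2 * (d : ℝ)) * (2 * μ) := by positivity
          nlinarith
      _ = 16 * (s * (μ * (d * f)) + t * (μ * (d * e))) := by ring
      _ ≤ 16 * (s * t + t * s) := by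
          have := mul_le_mul_of_nonneg_left h2 hs
          have := mul_le_mul_of_nonneg_left h1 ht
          linarith
      _ = 32 * (s * t) := by ring
  · congr 1
    ring

lemma overlap_small {d e f : ℕ} (hd : 1 ≤ d) (he : 1 ≤ e) (hf : 1 ≤ f) (hef : Nat.Coprime e f)
    {s t M : ℝ} (hs : 0 ≤ s) (hs2 : s ≤ 1 / 2) (ht : 0 ≤ t) (hsM : s ≤ M)
    (hD : f * s + e * t < 1 / 2) :
    volume (Aq y K (d * e) s ∩ Aq y K (d * f) t) ≤
      ENNReal.ofReal (64 * (M ^ 2 * (1 / (e : ℝ) ^ 2))) := by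
  have hd' : (0 : ℝ) < d := by exact_mod_cast hd
  have he' : (0 : ℝ) < e := by exact_mod_cast he
  have hf' : (0 : ℝ) < f := by exact_mod_cast hf
  refine (overlap_le hd he hf hef hs hs2 ht (X := 8 * (M / e)) ?_).trans (le_of_eq ?_)
  · obtain ⟨μ, hμ⟩ : ∃ μ : ℝ, μ = min (s / (d * e)) (t / (d * f)) := ⟨_, rfl⟩
    have h1 : μ ≤ s / (d * e) := hμ ▸ min_le_left _ _
    have h0 : 0 ≤ μ := hμ ▸ le_min (by positivity) (by positivity)
    rw [← hμ]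
    calc (2 * (f * s + e * t) + 1) * (2 * d) * (2 * μ)
        ≤ 2 * (2 * d) * (2 * μ) := by
          have : 0 ≤ (2 * (d : ℝ)) * (2 * μ) := by positivity
          nlinarith
      _ = 8 * (d * μ) := by ring
      _ ≤ 8 * (d * (s / (d * e))) := by
          have := mul_le_mul_of_nonneg_left h1 hd'.le
          linarith
      _ = 8 * (s / e) := by field_simp
      _ ≤ 8 * (M / e) := by
          have := div_le_div_of_nonneg_right hsM he'.le
          linarith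
  · congr 1
    field_simp
    ring

lemma diag_le {q : ℕ} (hq : 1 ≤ q) {s : ℝ} (hs : 0 ≤ s) (hs2 : s ≤ 1 / 2) :
    volume (Aq y K q s ∩ Aq y K q s) ≤ ENNReal.ofReal (144 * s ^ 2) := by
  have h := overlap_le (y := y) (K := K) (d := q) (e := 1) (f := 1) hq le_rfl le_rfl
    (Nat.coprime_one_right 1) hs hs2 hs (X := 12 * s) (by
      have hq' : (0 : ℝ) < q := by exact_mod_cast hq
      push_cast
      rw [min_self, one_mul, mul_one]
      have e1 : (2 * (s + s) + 1) * (2 * (q : ℝ)) * (2 * (s / q)) = (2 * (s + s) + 1) * 4 * s := by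
        field_simp; ring
      rw [e1]
      nlinarith)
  rw [mul_one] at h
  refine h.trans (le_of_eq ?_)
  congr 1
  ring

/-- the relevant `j` -/
noncomputable def JM (y : ℝ × ℝ) (M : ℝ) (e : ℕ) : Finset ℕ :=
  (Finset.range e).filter (fun j => 1 ≤ j ∧ nd y j < min (2 * e * M) (1 / 2))

lemma mem_JM {M : ℝ} {e j : ℕ} :
    j ∈ JM y M e ↔ j < e ∧ 1 ≤ j ∧ nd y j < min (2 * e * M) (1 / 2) := by
  rw [JM, Finset.mem_filter, Finset.mem_range]

/-- the structure of the bad overlaps -/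
lemma structureP {d e f : ℕ} (hf : 1 ≤ f) (hfe : f < e) (hef : Nat.Coprime e f)
    {s t M : ℝ} (hs : 0 ≤ s) (ht : 0 ≤ t) (hsM : s ≤ M) (htM : t ≤ M)
    (hD : f * s + e * t < 1 / 2) {x : ℝ × ℝ} (hx : x ∈ Aq y K (d * e) s)
    (hx' : x ∈ Aq y K (d * f) t) :
    e - f ∈ JM y M e ∧ (e ≤ K ∨ ((JM y M e).card : ℝ) ≤ 30 * e ^ 2 * M) := by
  classical
  obtain ⟨-, a, haS, ha1, ha2⟩ := hx
  obtain ⟨-, b, -, hb1, hb2⟩ := hx'
  push_cast at ha1 ha2 hb1 hb2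
  have hf' : (0 : ℝ) < f := by exact_mod_cast hf
  have he' : (0 : ℝ) < e := by exact_mod_cast (show 0 < e by omega)
  have hfe' : (f : ℝ) < e := by exact_mod_cast hfe
  obtain ⟨η, hη⟩ : ∃ η : ℝ, η = min (2 * e * M) (1 / 2) := ⟨_, rfl⟩
  have hM : 0 ≤ M := hs.trans hsM
  have hDη : f * s + e * t ≤ η := by
    rw [hη]
    refine le_min ?_ hD.le
    nlinarith [mul_le_mul hfe'.le hsM hs he'.le, mul_le_mul_of_nonneg_left htM he'.le]
  have hη2 : η ≤ 1 / 2 := hη ▸ min_le_right _ _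
  -- coordinatewise estimate
  have key : ∀ (α X : ℝ) (u v : ℤ), |d * e * X - u - α| < s → |d * f * X - v - α| < t →
      |((e - f : ℕ) : ℝ) * α - ((f * u - e * v : ℤ) : ℝ)| < f * s + e * t := by
    intro α X u v h1 h2
    have e1 : ((e - f : ℕ) : ℝ) * α - ((f * u - e * v : ℤ) : ℝ) =
        f * (d * e * X - u - α) - e * (d * f * X - v - α) := by
      rw [Nat.cast_sub hfe.le]; push_cast; ring
    rw [e1]
    refine (abs_sub _ _).trans_lt ?_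
    rw [abs_mul, abs_mul, Nat.abs_cast, Nat.abs_cast]
    have h3 := mul_lt_mul_of_pos_left h1 hf'
    have h4 := mul_lt_mul_of_pos_left h2 he'
    linarith
  have k1 := key y.1 x.1 a.1 b.1 ha1 hb1
  have k2 := key y.2 x.2 a.2 b.2 ha2 hb2
  have hjmem : e - f ∈ JM y M e := by
    rw [mem_JM, ← hη]
    refine ⟨by omega, by omega, ?_⟩
    refine (nd_le y (e - f) _ _).trans_lt (max_lt (k1.trans_le hDη) (k2.trans_le hDη))
  refine ⟨hjmem, ?_⟩
  by_cases hK : e ≤ K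
  · exact Or.inl hK
  right
  push Not at hK
  have hJne : (JM y M e).Nonempty := ⟨_, hjmem⟩
  obtain ⟨c, hc, hcmin⟩ : ∃ c ∈ JM y M e, ∀ j ∈ JM y M e, c ≤ j := ⟨(JM y M e).min' hJne,
    (JM y M e).min'_mem hJne, fun j hj => (JM y M e).min'_le j hj⟩
  have hc' := mem_JM.1 hc
  have hcB : c ∈ Best y := by
    refine ⟨hc'.2.1, fun j hj1 hjc => ?_⟩
    by_contra hlt
    push Not at hlt
    have hjJ : j ∈ JM y M e := mem_JM.2 ⟨hjc.trans hc'.1, hj1, hlt.trans_lt hc'.2.2⟩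
    exact absurd (hcmin j hjJ) (not_le.2 hjc)
  have hnot := haS c hcB e (dvd_mul_left e d) hc'.1 hK
  -- a generic coordinate
  have gen : ∀ (α X : ℝ) (u v : ℤ), |d * e * X - u - α| < s → |d * f * X - v - α| < t →
      (∀ j : ℕ, |(j : ℝ) * α - round ((j : ℝ) * α)| ≤ nd y j) →
      ¬ ((e : ℤ) ∣ c * u + round ((c : ℝ) * α)) → ((JM y M e).card : ℝ) ≤ 30 * e ^ 2 * M := by
    intro α X u v h1 h2 hnd hndvd
    have k := key α X u v h1 h2
    obtain ⟨J, hJ⟩ : ∃ J : Finset ℕ, J = (Finset.range e).filter (fun j : ℕ => 1 ≤ j ∧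
      |(j : ℝ) * α - round ((j : ℝ) * α)| < η) := ⟨_, rfl⟩
    have hJmem : ∀ j, j ∈ J ↔ 1 ≤ j ∧ j < e ∧ |(j : ℝ) * α - round ((j : ℝ) * α)| < η := by
      intro j
      rw [hJ, Finset.mem_filter, Finset.mem_range]
      tauto
    have hsub : JM y M e ⊆ J := by
      intro j hj
      have h := mem_JM.1 hj
      rw [← hη] at h
      exact (hJmem j).2 ⟨h.2.1, h.1, (hnd j).trans_lt h.2.2⟩
    have hround : round (((e - f : ℕ) : ℝ) * α) = f * u - e * v :=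
      round_unique (k.trans hD)
    have hA := lemA α e η J hJmem (hsub hjmem) (hsub hc) (by
      rw [hround]
      intro heq
      apply hndvd
      have hcop : IsCoprime (e : ℤ) f := Nat.isCoprime_iff_coprime.2 hef
      refine hcop.dvd_of_dvd_mul_left ?_
      rw [Nat.cast_sub hfe.le] at heq
      exact ⟨round ((c : ℝ) * α) + c * v, by linear_combination (-1 : ℤ) * heq⟩)
    have hcard : ((JM y M e).card : ℝ) ≤ J.card := by exact_mod_cast Finset.card_le_card hsub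
    have hη1 : η ≤ 2 * e * M := hη ▸ min_le_left _ _
    calc ((JM y M e).card : ℝ) ≤ J.card := hcard
      _ ≤ 15 * e * η := hA
      _ ≤ 15 * e * (2 * e * M) := mul_le_mul_of_nonneg_left hη1 (by positivity)
      _ = 30 * e ^ 2 * M := by ring
  rw [not_and_or] at hnot
  rcases hnot with h | h
  · exact gen y.1 x.1 a.1 b.1 ha1 hb1 (fun j => le_max_left _ _) h
  · exact gen y.2 x.2 a.2 b.2 ha2 hb2 (fun j => le_max_right _ _) h

end Pool.Agent.K3h25.Kh
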