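import Pool.Agent.K3h25.Kh.Main

set_option autoImplicit false
open Finset MeasureTheory

namespace Pool.Agent.K3h25.Kh

lemma small_case (y : ℝ × ℝ) (ψ : ℕ → ℝ) (h0 : ∀ q, 0 ≤ ψ q) (h1 : ∀ q, ψ q ≤ 1 / 2)
    (hdiv : ¬ Summable (fun q => ψ q ^ 2)) :
    ∀ᵐ x ∂(volume.restrict (Set.Icc (0 : ℝ × ℝ) 1)),
        {q : ℕ | 0 < q ∧ ∃ a : ℤ × ℤ,
          ‖(q : ℝ) • x - ((a.1 : ℝ), (a.2 : ℝ)) - y‖ < ψ q}.Infinite := by
  classical
  obtain ⟨K, hK1, hT⟩ : ∃ K : ℕ, 1 ≤ K ∧ T y K ≤ 1 / 16 := by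
    have h2 : ∀ᶠ K : ℕ in Filter.atTop, T y K < 1 / 16 :=
      (T_tendsto y).eventually (gt_mem_nhds (by norm_num))
    obtain ⟨K, hK⟩ := ((Filter.eventually_ge_atTop 1).and h2).exists
    exact ⟨K, hK.1, hK.2.le⟩
  rw [ae_restrict_iff' isClosed_Icc.measurableSet, ae_iff]
  refine measure_mono_null (t := (Set.Icc (0 : ℝ × ℝ) 1 \ U0) ∪ ⋃ M : ℕ, {x | x ∈ U0 ∧
    ∀ Q : ℕ, ∑ q ∈ Finset.Icc 1 Q,
      (Aq y K q (ψ q)).indicator (fun _ => (1 : ℝ)) x ≤ M}) ?_ ?_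
  · intro x hx
    rw [Set.mem_ofPred_eq] at hx
    push Not at hx
    obtain ⟨hx1, hx2⟩ := hx
    by_cases hxU : x ∈ U0
    · right
      obtain ⟨F, hF⟩ : ∃ F : Finset ℕ, F = hx2.toFinset := ⟨_, rfl⟩
      rw [Set.mem_iUnion]
      refine ⟨F.card, hxU, fun Q => ?_⟩
      have h3 : ∑ q ∈ Finset.Icc 1 Q, (Aq y K q (ψ q)).indicator (fun _ => (1 : ℝ)) x ≤
          ∑ q ∈ Finset.Icc 1 Q, (if q ∈ F then (1 : ℝ) else 0) := by
        refine Finset.sum_le_sum fun q hq => ?_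
        by_cases hA : x ∈ Aq y K q (ψ q)
        · have hqF : q ∈ F := by
            rw [hF, Set.Finite.mem_toFinset]
            obtain ⟨-, a, -, ha1, ha2⟩ := hA
            refine ⟨(Finset.mem_Icc.1 hq).1, a, ?_⟩
            rw [Prod.norm_def, max_lt_iff, Real.norm_eq_abs, Real.norm_eq_abs]
            exact ⟨ha1, ha2⟩
          rw [Set.indicator_of_mem hA, if_pos hqF]
        · rw [Set.indicator_of_notMem hA]
          split_ifs <;> norm_num
      refine h3.trans ?_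
      rw [← Finset.sum_filter, Finset.sum_const, nsmul_eq_mul, mul_one]
      have h4 : ((Finset.Icc 1 Q).filter (fun q => q ∈ F)).card ≤ F.card :=
        Finset.card_le_card fun q hq => (Finset.mem_filter.1 hq).2
      exact_mod_cast h4
    · left
      exact ⟨hx1, hxU⟩
  · refine measure_union_null ?_ ?_
    · rw [measure_sdiff U0_subset U0_open.measurableSet.nullMeasurableSet
        (by rw [vol_U0]; exact ENNReal.one_ne_top), vol_Icc, vol_U0, tsub_self]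
    · exact measure_iUnion_null fun M => null_E hK1 hT h0 h1 hdiv M

theorem main (y : ℝ × ℝ) (ψ : ℕ → ℝ) (h0 : ∀ q, 0 ≤ ψ q)
    (hdiv : ¬ Summable (fun q => ψ q ^ 2)) :
    ∀ᵐ x ∂(volume.restrict (Set.Icc (0 : ℝ × ℝ) 1)),
        {q : ℕ | 0 < q ∧ ∃ a : ℤ × ℤ,
          ‖(q : ℝ) • x - ((a.1 : ℝ), (a.2 : ℝ)) - y‖ < ψ q}.Infinite := by
  have hdiv' : ¬ Summable (fun q => (min (ψ q) (1 / 2)) ^ 2) := by
    intro hs
    apply hdiv
    have h2 := hs.tendsto_atTop_zero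
    have h3 : ∀ᶠ q : ℕ in Filter.atTop, (min (ψ q) (1 / 2)) ^ 2 < 1 / 4 :=
      h2.eventually (gt_mem_nhds (by norm_num))
    refine (summable_congr_cofinite ?_).1 hs
    rw [Nat.cofinite_eq_atTop]
    filter_upwards [h3] with q hq
    rcases le_or_gt (ψ q) (1 / 2) with h | h
    · rw [min_eq_left h]
    · rw [min_eq_right h.le] at hq
      norm_num at hq
  have h4 := small_case y (fun q => min (ψ q) (1 / 2)) (fun q => le_min (h0 q) (by norm_num))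
    (fun q => min_le_right _ _) hdiv'
  filter_upwards [h4] with x hx
  refine hx.mono ?_
  rintro q ⟨hq, a, ha⟩
  exact ⟨hq, a, ha.trans_le (min_le_left _ _)⟩

end Pool.Agent.K3h25.Kh
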